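import Pool.Agent.Helper48.CE.Iso2

/-!
The canonical unitaries tend weakly to zero through an isomorphism.
-/

open scoped ENNReal ComplexConjugate InnerProductSpace
open Filter Topology

namespace Pool.Agent.Helper48.CE

open Pool.Agent.Helper84.GVN

section Gen

variable {H : Type*} [NormedAddCommGroup H] [InnerProductSpace ℂ H] [CompleteSpace H]

theorem star_mul_self_le_one {a : H →L[ℂ] H} (ha : ‖a‖ ≤ 1) : star a * a ≤ 1 := by
  rw [← CStarAlgebra.norm_le_one_iff_of_nonneg (star a * a) (star_mul_self_nonneg a)]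
  rw [CStarRing.norm_star_mul_self]
  nlinarith [norm_nonneg a]

theorem re_inner_star_mul (a : H →L[ℂ] H) (x : H) :
    (inner ℂ ((star a * a) x) x).re = ‖a x‖ ^ 2 := by
  change (inner ℂ ((star a) (a x)) x).re = _
  rw [ContinuousLinearMap.star_eq_adjoint, ContinuousLinearMap.adjoint_inner_left,
    inner_self_eq_norm_sq_to_K]
  norm_cast

end Gen

section Lam

variable {G : Type*} [Group G]

theorem lam_RR (g : G) : (lam g : L2 G →L[ℂ] L2 G) ∈ RR G := fun k f => lam_rho g k f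

theorem lam_mul' (g h : G) : (lam (g * h) : L2 G →L[ℂ] L2 G) = lam g * lam h := by
  ext f : 1
  change lamU (g * h) f = lamU g (lamU h f)
  rw [lamU_mul]
  rfl

theorem lam_one' : (lam (1 : G) : L2 G →L[ℂ] L2 G) = 1 := by
  ext f : 1
  change lamU 1 f = f
  rw [lamU_one]
  rfl

theorem norm_lam_le (g : G) : ‖(lam g : L2 G →L[ℂ] L2 G)‖ ≤ 1 := by
  apply ContinuousLinearMap.opNorm_le_bound _ zero_le_one
  intro x
  rw [one_mul, lam_eq, LinearIsometryEquiv.norm_map]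

end Lam

theorem IsoR.sum {G H : Type*} [Group G] [Group H] {Φ : (L2 G →L[ℂ] L2 G) → (L2 H →L[ℂ] L2 H)}
    (h : IsoR Φ) {ι : Type*} (s : Finset ι) (T : ι → L2 G →L[ℂ] L2 G) (hT : ∀ i, T i ∈ RR G) :
    Φ (∑ i ∈ s, T i) = ∑ i ∈ s, Φ (T i) := by
  classical
  induction s using Finset.induction_on with
  | empty => rw [Finset.sum_empty, Finset.sum_empty, h.zero]
  | insert a s ha ih =>
    rw [Finset.sum_insert ha, Finset.sum_insert ha, h.add _ (hT a) _ (RR_sum s fun i _ => hT i), ih]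

theorem mixing {G H : Type*} [Group G] [Group H] {Φ : (L2 G →L[ℂ] L2 G) → (L2 H →L[ℂ] L2 H)}
    (h : IsoR Φ) (g : H) : Tendsto (fun t : G => (Φ (lam t) (dl 1)) g) cofinite (𝓝 0) := by
  classical
  by_contra hcon
  rw [Metric.tendsto_nhds] at hcon
  push_neg at hcon
  obtain ⟨ε, hε, hinf⟩ := hcon
  rw [Filter.frequently_cofinite_iff_infinite] at hinf
  set r : ℕ ↪ _ := hinf.natEmbedding with hr
  set z : ℕ → ℂ := fun k => (Φ (lam (r k : G)) (dl 1)) g with hz
  have hzε : ∀ k, ε ≤ ‖z k‖ := by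
    intro k
    have := (r k).2
    simpa [dist_zero_right] using this
  set c : ℕ → ℂ := fun k => conj (z k) / ‖z k‖ with hc
  have hz0 : ∀ k, ‖z k‖ ≠ 0 := fun k => ne_of_gt (lt_of_lt_of_le hε (hzε k))
  have hc1 : ∀ k, ‖c k‖ = 1 := by
    intro k
    simp only [hc]
    rw [norm_div, RCLike.norm_conj, Complex.norm_real, norm_norm, div_self (hz0 k)]
  have hcz : ∀ k, c k * z k = (‖z k‖ : ℂ) := by
    intro k
    simp only [hc]
    have h1 : conj (z k) * z k = (‖z k‖ : ℂ) ^ 2 := by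
      rw [mul_comm, Complex.mul_conj, Complex.normSq_eq_norm_sq]
      norm_cast
    have h2 : (‖z k‖ : ℂ) ≠ 0 := by exact_mod_cast hz0 k
    field_simp
    rw [mul_comm, mul_comm] at h1
    linear_combination h1
  set a : ℕ → L2 G →L[ℂ] L2 G := fun j =>
    (((2 : ℝ) ^ j)⁻¹ : ℂ) • ∑ k ∈ Finset.range (2 ^ j), c k • lam (r k : G) with ha
  have haR : ∀ j, a j ∈ RR G := fun j => RR_smul _ (RR_sum _ fun k _ => RR_smul _ (lam_RR _))
  have hnorm2 : ∀ j : ℕ, ‖(((2 : ℝ) ^ j)⁻¹ : ℂ)‖ = ((2 : ℝ) ^ j)⁻¹ := by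
    intro j
    rw [norm_inv, norm_pow]
    simp
  have ha1 : ∀ j, ‖a j‖ ≤ 1 := by
    intro j
    simp only [ha]
    rw [norm_smul, hnorm2]
    have h1 : ‖∑ k ∈ Finset.range (2 ^ j), c k • (lam (r k : G) : L2 G →L[ℂ] L2 G)‖ ≤
        (2 : ℝ) ^ j := by
      refine (norm_sum_le _ _).trans ?_
      calc ∑ k ∈ Finset.range (2 ^ j), ‖c k • (lam (r k : G) : L2 G →L[ℂ] L2 G)‖
          ≤ ∑ k ∈ Finset.range (2 ^ j), (1 : ℝ) := by
            apply Finset.sum_le_sum
            intro k _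
            rw [norm_smul, hc1, one_mul]
            exact norm_lam_le _
        _ = (2 : ℝ) ^ j := by simp
    calc ((2 : ℝ) ^ j)⁻¹ * ‖∑ k ∈ Finset.range (2 ^ j), c k • (lam (r k : G) : L2 G →L[ℂ] L2 G)‖
        ≤ ((2 : ℝ) ^ j)⁻¹ * (2 : ℝ) ^ j := by gcongr
      _ = 1 := by field_simp
  have hadl : ∀ j, ‖a j (dl 1)‖ ^ 2 = (1 / 2) ^ j := by
    intro j
    have h1 : a j (dl 1) = (((2 : ℝ) ^ j)⁻¹ : ℂ) •
        ∑ k ∈ Finset.range (2 ^ j), c k • (dl (r k : G) : L2 G) := by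
      simp only [ha]
      rw [smul_apply, sum_apply]
      congr 1
      apply Finset.sum_congr rfl
      intro k _
      rw [smul_apply, lam_eq, lamU_dl, mul_one]
    rw [h1, norm_smul, mul_pow, hnorm2]
    have h2 : Orthonormal ℂ fun k : ℕ => (dl (r k : G) : L2 G) := by
      constructor
      · intro k; exact norm_dl _
      · intro k l hkl
        rw [inner_dl_left, dl_apply, if_neg]
        intro h3
        exact hkl (r.injective (Subtype.ext h3))
    have h3 : ‖∑ k ∈ Finset.range (2 ^ j), c k • (dl (r k : G) : L2 G)‖ ^ 2 = (2 : ℝ) ^ j := by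
      have h4 := h2.inner_sum c c (Finset.range (2 ^ j))
      rw [inner_self_eq_norm_sq_to_K] at h4
      have h5 : ∀ k, conj (c k) * c k = 1 := by
        intro k
        rw [mul_comm, Complex.mul_conj, Complex.normSq_eq_norm_sq, hc1]
        simp
      simp only [h5, Finset.sum_const, Finset.card_range, nsmul_eq_mul, mul_one] at h4
      have h6 : ((‖∑ k ∈ Finset.range (2 ^ j), c k • (dl (r k : G) : L2 G)‖ ^ 2 : ℝ) : ℂ) =
          (((2 : ℝ) ^ j : ℝ) : ℂ) := by
        push_cast at h4 ⊢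
        exact h4
      exact_mod_cast h6
    rw [h3, one_div, inv_pow, inv_pow]
    field_simp
  have hΦ : ∀ j, ε ≤ ‖Φ (a j) (dl 1)‖ := by
    intro j
    have h1 : (Φ (a j) (dl 1)) g = (((2 : ℝ) ^ j)⁻¹ : ℂ) *
        ∑ k ∈ Finset.range (2 ^ j), (‖z k‖ : ℂ) := by
      simp only [ha]
      rw [h.smul _ (RR_sum _ fun k _ => RR_smul _ (lam_RR _)),
        h.sum _ _ (fun k => RR_smul _ (lam_RR _))]
      have h2 : ∀ k, Φ (c k • lam (r k : G)) = c k • Φ (lam (r k : G)) := fun k =>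
        h.smul _ (lam_RR _) _
      simp only [h2]
      rw [smul_apply, sum_apply]
      change _ * (∑ k ∈ Finset.range (2 ^ j), (c k • Φ (lam (r k : G))) (dl 1) : L2 H) g = _
      congr 1
      rw [lp.coeFn_sum, Finset.sum_apply]
      apply Finset.sum_congr rfl
      intro k _
      rw [← hcz k]
      rfl
    have h3 : ε ≤ ‖(Φ (a j) (dl 1)) g‖ := by
      rw [h1, norm_mul, hnorm2]
      have h4 : ‖∑ k ∈ Finset.range (2 ^ j), (‖z k‖ : ℂ)‖ = ∑ k ∈ Finset.range (2 ^ j), ‖z k‖ := by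
        rw [← Complex.ofReal_sum, Complex.norm_real, Real.norm_of_nonneg]
        exact Finset.sum_nonneg fun k _ => norm_nonneg _
      rw [h4]
      have h5 : (2 : ℝ) ^ j * ε ≤ ∑ k ∈ Finset.range (2 ^ j), ‖z k‖ := by
        calc (2 : ℝ) ^ j * ε = ∑ k ∈ Finset.range (2 ^ j), ε := by simp
          _ ≤ _ := Finset.sum_le_sum fun k _ => hzε k
      calc ε = ((2 : ℝ) ^ j)⁻¹ * ((2 : ℝ) ^ j * ε) := by field_simp
        _ ≤ _ := by gcongr
    exact h3.trans (norm_apply_le _ _)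
  refine no_singular h (δ := ε ^ 2) (by positivity) (fun j => star (a j) * a j)
    (fun j => RR_mul (RR_star (haR j)) (haR j)) (fun j => star_mul_self_nonneg' _)
    (fun j => star_mul_self_le_one (ha1 j)) (fun j => ?_) (fun j => ?_)
  · unfold tc
    rw [re_inner_star_mul, hadl]
  · rw [h.mul _ (RR_star (haR j)) _ (haR j), h.star _ (haR j)]
    unfold tc
    rw [re_inner_star_mul]
    have := hΦ j
    gcongr

/-- The unitaries given by an isomorphism. -/
noncomputable def isoU {G H : Type*} [Group G] [Group H]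
    {Φ : (L2 G →L[ℂ] L2 G) → (L2 H →L[ℂ] L2 H)} (h : IsoR Φ) : G →* (L2 H ≃ₗᵢ[ℂ] L2 H) where
  toFun g := Unitary.linearIsometryEquiv ⟨Φ (lam g), by
    have e : ∀ x y : G, Φ (lam x) * Φ (lam y) = Φ (lam (x * y)) := fun x y => by
      rw [← h.mul _ (lam_RR x) _ (lam_RR y), ← lam_mul']
    have h1 : star (Φ (lam g)) * Φ (lam g) = 1 := by
      rw [← h.star _ (lam_RR g), star_lam, e, inv_mul_cancel, lam_one', h.one]
    have h2 : Φ (lam g) * star (Φ (lam g)) = 1 := by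
      rw [← h.star _ (lam_RR g), star_lam, e, mul_inv_cancel, lam_one', h.one]
    exact ⟨h1, h2⟩⟩
  map_one' := by
    ext f : 1
    change Φ (lam 1) f = f
    rw [lam_one', h.one]
    rfl
  map_mul' x y := by
    ext f : 1
    change Φ (lam (x * y)) f = Φ (lam x) (Φ (lam y) f)
    rw [lam_mul', h.mul _ (lam_RR x) _ (lam_RR y)]
    rfl

theorem isoU_apply {G H : Type*} [Group G] [Group H]
    {Φ : (L2 G →L[ℂ] L2 G) → (L2 H →L[ℂ] L2 H)} (h : IsoR Φ) (g : G) (f : L2 H) :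
    isoU h g f = Φ (lam g) f := rfl

/-- Coarse embeddability from the property `Star` through an isomorphism. -/
theorem coarse_of_iso {G Λ : Type} [Group G] [Countable G] [Group Λ] [Countable Λ] (hG : Star G)
    {Φ : (L2 G →L[ℂ] L2 G) → (L2 Λ →L[ℂ] L2 Λ)} (h : IsoR Φ) :
    ∃ F : Λ → lp (fun _ : ℕ => ℝ) 2,
      (∀ K : Finset Λ, ∃ C : ℝ, ∀ x y : Λ, x⁻¹ * y ∈ K → ‖F x - F y‖ ≤ C) ∧
      (∀ R : ℝ, ∃ K : Finset Λ, ∀ x y : Λ, ‖F x - F y‖ ≤ R → x⁻¹ * y ∈ K) := by
  obtain ⟨Ψ, hΨ, _, _⟩ := h.symm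
  apply coarse_of_star hG (isoU hΨ)
  · intro t k f
    exact hΨ.mem (lam_RR t) k f
  · intro g
    exact mixing hΨ g

end Pool.Agent.Helper48.CE
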