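import Pool.Agent.Helper84.GVN.Group

/-!
Bounded multiplication operators, vector valued functions, amplification of operators commuting
with the right translations.
-/

open scoped ENNReal ComplexConjugate
open Filter Topology

namespace Pool.Agent.Helper48.CE

open Pool.Agent.Helper84.GVN

section Mul

variable {I : Type*}

/-- Pointwise multiplication by a bounded function. -/
noncomputable def mulB (a : I → ℂ) (ha : ∃ A, ∀ i, ‖a i‖ ≤ A) (f : L2 I) : L2 I :=
  ⟨fun i => a i * f i, memL2 (by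
    obtain ⟨A, hA⟩ := ha
    refine Summable.of_nonneg_of_le (fun i => by positivity) (fun i => ?_)
      ((summable_sq f).mul_left (A ^ 2))
    rw [norm_mul, mul_pow]
    gcongr
    exact hA i)⟩

@[simp] theorem mulB_apply (a : I → ℂ) (ha) (f : L2 I) (i : I) : mulB a ha f i = a i * f i := rfl

theorem norm_mulB_sq (a : I → ℂ) (ha) (f : L2 I) :
    ‖mulB a ha f‖ ^ 2 = ∑' i, ‖a i‖ ^ 2 * ‖f i‖ ^ 2 := by
  rw [norm_sq_eq]
  congr 1
  funext i
  rw [mulB_apply, norm_mul, mul_pow]

theorem norm_mulB_le {a : I → ℂ} {A : ℝ} (hA : ∀ i, ‖a i‖ ≤ A) (hA0 : 0 ≤ A) (ha) (f : L2 I) :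
    ‖mulB a ha f‖ ≤ A * ‖f‖ := by
  apply (sq_le_sq₀ (norm_nonneg _) (by positivity)).1
  rw [norm_mulB_sq, mul_pow, norm_sq_eq, ← tsum_mul_left]
  have h1 : Summable fun i => A ^ 2 * ‖f i‖ ^ 2 := (summable_sq f).mul_left _
  have h2 : ∀ i, ‖a i‖ ^ 2 * ‖f i‖ ^ 2 ≤ A ^ 2 * ‖f i‖ ^ 2 := fun i => by
    gcongr
    exact hA i
  exact Summable.tsum_le_tsum h2
    (Summable.of_nonneg_of_le (fun i => by positivity) h2 h1) h1

end Mul

section Vec

variable {G J : Type*}

/-- The function `(g, j) ↦ f(g) P(g)(j)`. -/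
noncomputable def dmul (P : G → L2 J) (hP : ∃ C, ∀ g, ‖P g‖ ≤ C) (f : L2 G) : L2 (G × J) :=
  ⟨fun p => f p.1 * P p.1 p.2, memL2 (by
    obtain ⟨C, hC⟩ := hP
    refine (summable_prod_of_nonneg (fun p => by positivity)).2 ⟨fun g => ?_, ?_⟩
    · simp only [norm_mul, mul_pow]
      exact (summable_sq (P g)).mul_left _
    · simp only [norm_mul, mul_pow, tsum_mul_left]
      refine Summable.of_nonneg_of_le (fun g => by positivity) (fun g => ?_)
        ((summable_sq f).mul_left (C ^ 2))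
      rw [← norm_sq_eq, mul_comm]
      gcongr
      exact hC g)⟩

@[simp] theorem dmul_apply (P : G → L2 J) (hP) (f : L2 G) (p : G × J) :
    dmul P hP f p = f p.1 * P p.1 p.2 := rfl

theorem norm_dmul_sq (P : G → L2 J) (hP) (f : L2 G) :
    ‖dmul P hP f‖ ^ 2 = ∑' g, ‖f g‖ ^ 2 * ‖P g‖ ^ 2 := by
  rw [norm_sq_eq, (summable_sq (dmul P hP f)).tsum_prod]
  congr 1
  funext g
  simp only [dmul_apply, norm_mul, mul_pow, tsum_mul_left]
  rw [norm_sq_eq (P g)]

theorem norm_dmul_le {P : G → L2 J} {C : ℝ} (hC : ∀ g, ‖P g‖ ≤ C) (hC0 : 0 ≤ C) (hP) (f : L2 G) :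
    ‖dmul P hP f‖ ≤ C * ‖f‖ := by
  apply (sq_le_sq₀ (norm_nonneg _) (by positivity)).1
  rw [norm_dmul_sq, mul_pow, norm_sq_eq f, ← tsum_mul_left]
  have h1 : Summable fun i => C ^ 2 * ‖f i‖ ^ 2 := (summable_sq f).mul_left _
  have h2 : ∀ g, ‖f g‖ ^ 2 * ‖P g‖ ^ 2 ≤ C ^ 2 * ‖f g‖ ^ 2 := fun g => by
    rw [mul_comm]
    gcongr
    exact hC g
  exact Summable.tsum_le_tsum h2
    (Summable.of_nonneg_of_le (fun i => by positivity) h2 h1) h1

theorem dmul_sub (P R : G → L2 J) (hP) (hR) (hPR) (f : L2 G) :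
    dmul P hP f - dmul R hR f = dmul (fun g => P g - R g) hPR f := by
  apply l2_ext
  intro p
  change f p.1 * P p.1 p.2 - f p.1 * R p.1 p.2 = f p.1 * (P p.1 - R p.1) p.2
  rw [lp.coeFn_sub, Pi.sub_apply, mul_sub]

/-- The row at `g`. -/
noncomputable def row (g : G) : L2 (G × J) →L[ℂ] L2 J :=
  (sl g).comp ((permU (Equiv.prodComm G J)).toContinuousLinearEquiv : L2 (G × J) →L[ℂ] L2 (J × G))

@[simp] theorem row_apply (g : G) (F : L2 (G × J)) (j : J) : row g F j = F (g, j) := rfl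

theorem row_dmul (P : G → L2 J) (hP) (f : L2 G) (g : G) : row g (dmul P hP f) = f g • P g := by
  apply l2_ext
  intro j
  rfl

/-- The inclusion of the row at `g`. -/
noncomputable def incR (g : G) : L2 J →L[ℂ] L2 (G × J) :=
  ((permU (Equiv.prodComm J G)).toContinuousLinearEquiv :
    L2 (J × G) →L[ℂ] L2 (G × J)).comp (inc g)

theorem incR_dl (g : G) (j : J) : incR g (dl j) = (dl (g, j) : L2 (G × J)) := by
  change permU (Equiv.prodComm J G) (inc g (dl j)) = _
  rw [inc_dl, permU_dl]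
  rfl

theorem hasSum_incR (F : L2 (G × J)) : HasSum (fun g => incR g (row g F)) F := by
  have h := hasSum_dl F
  refine h.prod_fiberwise (fun g => ?_)
  have h1 := (hasSum_dl (row g F)).mapL (incR g)
  convert! h1 using 2 with j
  rw [map_smul, incR_dl, row_apply]

theorem sl_incR (g : G) (y : L2 J) (j : J) : sl j (incR g y) = y j • (dl g : L2 G) := by
  classical
  apply l2_ext
  intro k
  have h : (incR g y) (k, j) = if k = g then y j else 0 := by
    change inc g y (j, k) = _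
    split_ifs with hk
    · subst hk
      rw [inc_apply_self]
    · rw [inc_apply_ne hk]
  rw [sl_apply, h]
  change _ = y j * (dl g : L2 G) k
  rw [dl_apply]
  split_ifs <;> simp

theorem row_amp1_incR (u : L2 G ≃ₗᵢ[ℂ] L2 G) (g h : G) (y : L2 J) :
    row g (amp1 u (incR h y)) = (u (dl h)) g • y := by
  apply l2_ext
  intro j
  rw [row_apply, amp1_apply]
  simp only
  rw [sl_incR, map_smul]
  change y j * _ = _ * y j
  rw [mul_comm]

/-- The inner product of a vector with a row of an amplified operator. -/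
theorem hasSum_inner_row (u : L2 G ≃ₗᵢ[ℂ] L2 G) (F : L2 (G × J)) (g : G) (y : L2 J) :
    HasSum (fun h => (u (dl h)) g * inner ℂ y (row h F)) (inner ℂ y (row g (amp1 u F))) := by
  have h1 := (hasSum_incR F).mapL
    ((innerSL ℂ y).comp ((row g).comp ((amp1 u : L2 (G × J) ≃ₗᵢ[ℂ] L2 (G × J)).toContinuousLinearEquiv
      : L2 (G × J) →L[ℂ] L2 (G × J))))
  have h2 : (fun h => ((innerSL ℂ y).comp ((row g).comp
      ((amp1 u : L2 (G × J) ≃ₗᵢ[ℂ] L2 (G × J)).toContinuousLinearEquiv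
      : L2 (G × J) →L[ℂ] L2 (G × J)))) (incR h (row h F))) =
      fun h => (u (dl h)) g * inner ℂ y (row h F) := by
    funext h
    change inner ℂ y (row g (amp1 u (incR h (row h F)))) = _
    rw [row_amp1_incR, inner_smul_right]
  rw [h2] at h1
  exact h1

/-- The inner product by rows. -/
theorem hasSum_inner_rows (F F' : L2 (G × J)) :
    HasSum (fun g => inner ℂ (row g F) (row g F')) (inner ℂ F F') := by
  have h1 : HasSum (fun p : G × J => inner ℂ (F p) (F' p)) (inner ℂ F F') :=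
    lp.hasSum_inner F F'
  refine h1.prod_fiberwise (fun g => ?_)
  exact lp.hasSum_inner (row g F) (row g F')

end Vec

end Pool.Agent.Helper48.CE
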