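import Pool.Agent.Helper48.CE.Ext2

/-!
Extensions by exact groups with the complete metric approximation property preserve `Star`.
-/

open scoped ENNReal ComplexConjugate
open Filter Topology

namespace Pool.Agent.Helper48.CE

open Pool.Agent.Helper84.GVN

theorem star_ext {G : Type} [Group G] [Countable G] (N : Subgroup G) [N.Normal]
    (h1 : Star N) (h2 : PropA (G ⧸ N)) (h3 : CMAP (G ⧸ N)) : Star G := by
  classical
  have hQc : Countable (G ⧸ N) := Quotient.countable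
  intro w hw0 hws ε hε
  set ε' : ℝ := min ε 1 / 8 with hε'
  have hm0 : 0 < min ε 1 := lt_min hε one_pos
  have hε'0 : 0 < ε' := by positivity
  have hε'ε : ε' ≤ ε / 8 := by
    have := min_le_left ε 1
    rw [hε']; linarith
  have hε'1 : ε' ≤ 1 / 8 := by
    have := min_le_right ε 1
    rw [hε']; linarith
  -- the multiplier of the quotient
  obtain ⟨U1, η1, hη1, hU1⟩ := tail hw0 hws 5 (by norm_num) (ε / 3) (by positivity)
  set ε1 : ℝ := min η1 (min ε' (ε' ^ 2 / 8)) with hε1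
  have hε10 : 0 < ε1 := lt_min hη1 (lt_min hε'0 (by positivity))
  have hε1η : ε1 ≤ η1 := min_le_left _ _
  have hε1ε : ε1 ≤ ε' := (min_le_right _ _).trans (min_le_left _ _)
  have hε1s : ε1 ≤ ε' ^ 2 / 8 := (min_le_right _ _).trans (min_le_right _ _)
  obtain ⟨m, p, r, hm, hmF, hp, hr, hpr⟩ := h3 (insert 1 (U1.image (fun u : G => (u : G ⧸ N)))) ε1 hε10
  have hm2 : ∀ q, ‖m q‖ ≤ 2 := norm_mult_le (by linarith) hp hr hpr
  have hprε : ∀ q, ‖p q - r q‖ ≤ ε' := fun q => by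
    apply norm_sub_of_inner hε'0.le (by linarith) hε1s (hp q) (hr q)
    rw [hpr, mul_inv_cancel]
    exact hmF 1 (Finset.mem_insert_self _ _)
  set W' : ℝ := √(∑' u, w u) with hW'
  have hW'0 : 0 ≤ W' := Real.sqrt_nonneg _
  -- property A
  set ε2 : ℝ := ε / (3 * ((hm.toFinset.card : ℝ) * (2 * W') + 1)) with hε2
  have hε20 : 0 < ε2 := by positivity
  obtain ⟨B, V, hV1, hVB, hVS⟩ := h2 hm.toFinset ε2 hε20
  -- the kernel on the subgroup
  set wN : N → ℝ := fun n => ∑ x : hm.toFinset × B, w (sg N x.2 * n * (sg N ((x.1 : G ⧸ N)⁻¹ * x.2))⁻¹)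
    with hwN
  have hwN0 : ∀ n, 0 ≤ wN n := fun n => Finset.sum_nonneg fun x _ => hw0 _
  have hinj : ∀ c d : G, Function.Injective fun n : N => c * (n : G) * d := by
    intro c d n n' h
    apply Subtype.ext
    simpa using h
  have hwNs : Summable wN := summable_sum fun x _ => hws.comp_injective (hinj _ _)
  set ε3 : ℝ := min ε' (ε / (6 * ((hm.toFinset.card : ℝ) * B.card + 1))) with hε3
  have hε30 : 0 < ε3 := lt_min hε'0 (by positivity)
  have hε3ε : ε3 ≤ ε' := min_le_left _ _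
  have hε3c : ε3 ≤ ε / (6 * ((hm.toFinset.card : ℝ) * B.card + 1)) := min_le_right _ _
  obtain ⟨J, ι, κ, hJ, _, _, PN, RN, a, φ, b, c, Bd, hP, hR, hPR, ha, hφ, hφ0, hk, hb, hc, hk',
    hB⟩ := h1 wN hwN0 hwNs ε3 hε30
  choose A hA using ha
  choose D hD using hφ
  choose C hC using hc
  have hBd0 : ∀ i, 0 ≤ Bd i := fun i => (norm_nonneg _).trans (hb i 1)
  have hPb : ∃ C, ∀ n, ‖PN n‖ ≤ C := ⟨_, hP⟩
  have hRb : ∃ C, ∀ n, ‖RN n‖ ≤ C := ⟨_, hR⟩
  have hYP : ∀ g, ‖yv N V PN hPb g‖ ≤ 1 + ε' := fun g =>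
    (norm_yv_le N V hP hPb hV1 g).trans (by linarith)
  have hYR : ∀ g, ‖yv N V RN hRb g‖ ≤ 1 + ε' := fun g =>
    (norm_yv_le N V hR hRb hV1 g).trans (by linarith)
  have hYPR : ∀ g, ‖yv N V PN hPb g - yv N V RN hRb g‖ ≤ ε' := fun g =>
    (norm_yv_sub_le N V hPR hPb hRb hV1 g).trans hε3ε
  -- abbreviations
  set tw : G → G ⧸ N → G ⧸ N → G := fun u q β => (sg N β)⁻¹ * u * sg N (q⁻¹ * β) with htw
  have hcomb : ∀ (g h : G) (β : G ⧸ N) {τ : Type} [Fintype τ] (aa : τ → N → ℂ) (pp : τ → N → ℂ),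
      ∑ i, aa i (nz N g (β⁻¹ * (g : G ⧸ N))) *
        pp i (nz N g (β⁻¹ * (g : G ⧸ N)) * (nz N h (β⁻¹ * (g : G ⧸ N)))⁻¹) =
      ∑ i, aa i (nz N g (β⁻¹ * (g : G ⧸ N))) *
        ext0 N (pp i) (tw (g * h⁻¹) ((g * h⁻¹ : G) : G ⧸ N) β) := by
    intro g h β τ _ aa pp
    apply Finset.sum_congr rfl
    intro i _
    rw [nz_mul_inv, htw]
    simp only
    rw [ext0, dif_pos (tw_mem N (g * h⁻¹) β)]
  have hinner : ∀ g h : G, inner ℂ (ten (p (g : G ⧸ N)) (yv N V PN hPb g))
      (ten (r (h : G ⧸ N)) (yv N V RN hRb h)) =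
      m ((g * h⁻¹ : G) : G ⧸ N) * ∑ β ∈ B, aco N V ((g * h⁻¹ : G) : G ⧸ N) β g *
        inner ℂ (PN (nz N g (β⁻¹ * (g : G ⧸ N)))) (RN (nz N h (β⁻¹ * (g : G ⧸ N)))) := by
    intro g h
    rw [inner_ten, hpr, inner_yv N V PN RN hPb hRb B hVB]
    congr 1
  have hk1 : ∀ (g h : G) (β : G ⧸ N),
      inner ℂ (PN (nz N g (β⁻¹ * (g : G ⧸ N)))) (RN (nz N h (β⁻¹ * (g : G ⧸ N)))) =
      ∑ i, a i (nz N g (β⁻¹ * (g : G ⧸ N))) *
        ext0 N (φ i) (tw (g * h⁻¹) ((g * h⁻¹ : G) : G ⧸ N) β) := by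
    intro g h β
    rw [hk, hcomb]
  have hk2 : ∀ (g h : G) (β : G ⧸ N),
      1 - inner ℂ (PN (nz N g (β⁻¹ * (g : G ⧸ N)))) (RN (nz N h (β⁻¹ * (g : G ⧸ N)))) =
      ∑ i, b i (nz N g (β⁻¹ * (g : G ⧸ N))) *
        ext0 N (c i) (tw (g * h⁻¹) ((g * h⁻¹ : G) : G ⧸ N) β) := by
    intro g h β
    rw [hk', hcomb]
  have hsum3 : ∀ (g h : G) {τ : Type} [Fintype τ] (aa : τ → N → ℂ) (pp : τ → N → ℂ),
      ∑ x : hm.toFinset × (B × τ), (aco N V x.1 x.2.1 g * aa x.2.2 (nz N g ((x.2.1 : G ⧸ N)⁻¹ *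
        (g : G ⧸ N)))) * (if ((g * h⁻¹ : G) : G ⧸ N) = x.1 then m x.1 *
          ext0 N (pp x.2.2) (tw (g * h⁻¹) x.1 x.2.1) else 0) =
      m ((g * h⁻¹ : G) : G ⧸ N) * ∑ β ∈ B, aco N V ((g * h⁻¹ : G) : G ⧸ N) β g *
        ∑ i, aa i (nz N g (β⁻¹ * (g : G ⧸ N))) *
          ext0 N (pp i) (tw (g * h⁻¹) ((g * h⁻¹ : G) : G ⧸ N) β) := by
    intro g h τ _ aa pp
    rw [Fintype.sum_prod_type, ← sum_ite_supp m hm ((g * h⁻¹ : G) : G ⧸ N)
      (fun q => ∑ β ∈ B, aco N V q β g * ∑ i, aa i (nz N g (β⁻¹ * (g : G ⧸ N))) *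
          ext0 N (pp i) (tw (g * h⁻¹) q β))]
    apply Finset.sum_congr rfl
    intro q _
    rw [Fintype.sum_prod_type, ← Finset.sum_coe_sort B]
    by_cases hq : ((g * h⁻¹ : G) : G ⧸ N) = q
    · rw [if_pos hq, Finset.mul_sum]
      apply Finset.sum_congr rfl
      intro β _
      rw [Finset.mul_sum, Finset.mul_sum]
      apply Finset.sum_congr rfl
      intro i _
      rw [if_pos hq]
      ring
    · rw [if_neg hq]
      apply Finset.sum_eq_zero
      intro β _
      apply Finset.sum_eq_zero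
      intro i _
      rw [if_neg hq, mul_zero]
  refine ⟨ℕ × ((G ⧸ N) × J), hm.toFinset × (B × ι),
    Unit ⊕ (hm.toFinset ⊕ (hm.toFinset × (B × κ))), inferInstance, inferInstance, inferInstance,
    fun g => ten (p (g : G ⧸ N)) (yv N V PN hPb g),
    fun g => ten (r (g : G ⧸ N)) (yv N V RN hRb g),
    fun x g => aco N V x.1 x.2.1 g * a x.2.2 (nz N g ((x.2.1 : G ⧸ N)⁻¹ * (g : G ⧸ N))),
    fun x u => if (u : G ⧸ N) = x.1 then m x.1 * ext0 N (φ x.2.2) (tw u x.1 x.2.1) else 0,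
    Sum.elim (fun _ _ => 1) (Sum.elim (fun q g => 1 - ∑ β ∈ B, aco N V q β g)
      (fun x g => aco N V x.1 x.2.1 g * b x.2.2 (nz N g ((x.2.1 : G ⧸ N)⁻¹ * (g : G ⧸ N))))),
    Sum.elim (fun _ u => 1 - m (u : G ⧸ N)) (Sum.elim
      (fun q u => if (u : G ⧸ N) = q then m q * 1 else 0)
      (fun x u => if (u : G ⧸ N) = x.1 then m x.1 * ext0 N (c x.2.2) (tw u x.1 x.2.1) else 0)),
    Sum.elim (fun _ => 1) (Sum.elim (fun _ => ε2) (fun x => Bd x.2.2)), ?_, ?_, ?_, ?_, ?_, ?_,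
    ?_, ?_, ?_, ?_, ?_⟩
  · intro g
    rw [norm_ten]
    calc ‖p (g : G ⧸ N)‖ * ‖yv N V PN hPb g‖ ≤ (1 + ε') * (1 + ε') :=
          mul_le_mul ((hp _).trans (by linarith)) (hYP g) (norm_nonneg _) (by positivity)
      _ ≤ 1 + ε := by nlinarith
  · intro g
    rw [norm_ten]
    calc ‖r (g : G ⧸ N)‖ * ‖yv N V RN hRb g‖ ≤ (1 + ε') * (1 + ε') :=
          mul_le_mul ((hr _).trans (by linarith)) (hYR g) (norm_nonneg _) (by positivity)
      _ ≤ 1 + ε := by nlinarith
  · intro g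
    refine (ten_sub_le _ _ _ _).trans ?_
    have e1 : ‖p (g : G ⧸ N) - r (g : G ⧸ N)‖ * ‖yv N V PN hPb g‖ ≤ ε' * (1 + ε') :=
      mul_le_mul (hprε _) (hYP g) (norm_nonneg _) hε'0.le
    have e2 : ‖r (g : G ⧸ N)‖ * ‖yv N V PN hPb g - yv N V RN hRb g‖ ≤ (1 + ε') * ε' :=
      mul_le_mul ((hr _).trans (by linarith)) (hYPR g) (norm_nonneg _) (by positivity)
    nlinarith
  · intro x
    refine ⟨1 * A x.2.2, fun g => ?_⟩
    beta_reduce
    rw [norm_mul]
    exact mul_le_mul (norm_aco_le N V hV1 _ _ g) (hA _ _) (norm_nonneg _) zero_le_one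
  · intro x
    refine ⟨2 * D x.2.2, fun u => ?_⟩
    have hD0 : 0 ≤ D x.2.2 := (norm_nonneg _).trans (hD x.2.2 1)
    beta_reduce
    split_ifs
    · rw [norm_mul]
      exact mul_le_mul (hm2 _) (norm_ext0_le N (hD _) _) (norm_nonneg _) zero_le_two
    · rw [norm_zero]
      positivity
  · intro x
    have e1 : Tendsto (fun u : G => ext0 N (φ x.2.2) (tw u x.1 x.2.1)) cofinite (𝓝 0) := by
      apply (ext0_tendsto N (hφ0 x.2.2)).comp
      apply Function.Injective.tendsto_cofinite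
      intro u u' huu
      simpa [htw] using huu
    have e2 : Tendsto (fun u : G => 2 * ‖ext0 N (φ x.2.2) (tw u x.1 x.2.1)‖) cofinite (𝓝 0) := by
      simpa using e1.norm.const_mul 2
    refine squeeze_zero_norm (fun u => ?_) e2
    beta_reduce
    split_ifs
    · rw [norm_mul]
      gcongr
      exact hm2 _
    · rw [norm_zero]
      positivity
  · intro g h
    rw [hinner]
    rw [hsum3 g h a φ]
    congr 1
    apply Finset.sum_congr rfl
    intro β _
    rw [hk1]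
  · rintro (_ | q | x) g
    · simp
    · simp only [Sum.elim_inr, Sum.elim_inl]
      rw [sum_aco N V B hVB]
      refine (norm_one_sub_inner_le (hV1 _)).trans (hVS _ _ ?_)
      have : (g : G ⧸ N) * ((q : G ⧸ N)⁻¹ * (g : G ⧸ N))⁻¹ = q := by group
      rw [this]
      exact q.2
    · simp only [Sum.elim_inr]
      rw [norm_mul]
      calc _ ≤ 1 * Bd x.2.2 :=
            mul_le_mul (norm_aco_le N V hV1 _ _ g) (hb _ _) (norm_nonneg _) zero_le_one
        _ = Bd x.2.2 := one_mul _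
  · rintro (_ | q | x)
    · refine ⟨5, fun u => ?_⟩
      simp only [Sum.elim_inl]
      refine (norm_sub_le _ _).trans ?_
      rw [norm_one]
      linarith [hm2 (u : G ⧸ N)]
    · refine ⟨2, fun u => ?_⟩
      simp only [Sum.elim_inr, Sum.elim_inl]
      split_ifs
      · rw [mul_one]; exact hm2 _
      · simp
    · refine ⟨2 * C x.2.2, fun u => ?_⟩
      have hC0 : 0 ≤ C x.2.2 := (norm_nonneg _).trans (hC x.2.2 1)
      simp only [Sum.elim_inr]
      split_ifs
      · rw [norm_mul]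
        exact mul_le_mul (hm2 _) (norm_ext0_le N (hC _) _) (norm_nonneg _) zero_le_two
      · rw [norm_zero]
        positivity
  · intro g h
    rw [hinner]
    simp only [Fintype.sum_sum_type, Sum.elim_inl, Sum.elim_inr, Finset.univ_unique,
      Finset.sum_singleton]
    rw [hsum3 g h b c]
    have e1 : ∑ q : hm.toFinset, (1 - ∑ β ∈ B, aco N V q β g) *
        (if ((g * h⁻¹ : G) : G ⧸ N) = q then m q * 1 else 0) =
        m ((g * h⁻¹ : G) : G ⧸ N) * (1 - ∑ β ∈ B, aco N V ((g * h⁻¹ : G) : G ⧸ N) β g) := by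
      rw [← sum_ite_supp m hm ((g * h⁻¹ : G) : G ⧸ N) (fun q => 1 - ∑ β ∈ B, aco N V q β g)]
      apply Finset.sum_congr rfl
      intro q _
      split_ifs <;> ring
    rw [e1]
    have e3 : ∑ β ∈ B, aco N V ((g * h⁻¹ : G) : G ⧸ N) β g *
        ∑ i, b i (nz N g (β⁻¹ * (g : G ⧸ N))) *
          ext0 N (c i) (tw (g * h⁻¹) ((g * h⁻¹ : G) : G ⧸ N) β) =
        ∑ β ∈ B, aco N V ((g * h⁻¹ : G) : G ⧸ N) β g -
        ∑ β ∈ B, aco N V ((g * h⁻¹ : G) : G ⧸ N) β g *
          inner ℂ (PN (nz N g (β⁻¹ * (g : G ⧸ N)))) (RN (nz N h (β⁻¹ * (g : G ⧸ N)))) := by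
      rw [← Finset.sum_sub_distrib]
      apply Finset.sum_congr rfl
      intro β _
      rw [← hk2]
      ring
    rw [e3]
    ring
  · simp only [Fintype.sum_sum_type, Sum.elim_inl, Sum.elim_inr, Finset.univ_unique,
      Finset.sum_singleton]
    have t1 : √(∑' u : G, ‖1 - m (u : G ⧸ N)‖ ^ 2 * w u) ≤ ε / 3 := by
      apply hU1 (fun u => 1 - m (u : G ⧸ N))
      · intro u
        refine (norm_sub_le _ _).trans ?_
        rw [norm_one]
        linarith [hm2 (u : G ⧸ N)]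
      · intro u hu
        exact (hmF _ (Finset.mem_insert_of_mem (Finset.mem_image_of_mem _ hu))).trans hε1η
    have t2 : ∀ q : hm.toFinset,
        √(∑' u : G, ‖(if (u : G ⧸ N) = q then m q * 1 else 0 : ℂ)‖ ^ 2 * w u) ≤ 2 * W' := by
      intro q
      apply Real.sqrt_le_iff.2 ⟨by positivity, ?_⟩
      rw [mul_pow, hW', Real.sq_sqrt (tsum_nonneg hw0), ← tsum_mul_left]
      have e1 : ∀ u : G, ‖(if (u : G ⧸ N) = q then m q * 1 else 0 : ℂ)‖ ^ 2 * w u ≤
          2 ^ 2 * w u := by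
        intro u
        have := hw0 u
        gcongr
        split_ifs
        · rw [mul_one]; exact hm2 _
        · simp
      exact Summable.tsum_le_tsum e1 (Summable.of_nonneg_of_le
        (fun u => mul_nonneg (by positivity) (hw0 u)) e1 (hws.mul_left _)) (hws.mul_left _)
    have t3 : ∀ x : hm.toFinset × (B × κ), √(∑' u : G,
        ‖(if (u : G ⧸ N) = x.1 then m x.1 * ext0 N (c x.2.2) (tw u x.1 x.2.1) else 0 : ℂ)‖ ^ 2 *
          w u) ≤ 2 * √(∑' n : N, ‖c x.2.2 n‖ ^ 2 * wN n) := by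
      intro x
      have f0 : (2 : ℝ) = √(2 ^ 2) := (Real.sqrt_sq zero_le_two).symm
      conv_rhs => rw [f0]
      rw [← Real.sqrt_mul (by positivity), ← tsum_mul_left]
      apply Real.sqrt_le_sqrt
      -- reindexing
      let e : G ≃ G :=
        { toFun := fun y => sg N x.2.1 * y * (sg N ((x.1 : G ⧸ N)⁻¹ * x.2.1))⁻¹
          invFun := fun u => (sg N x.2.1)⁻¹ * u * sg N ((x.1 : G ⧸ N)⁻¹ * x.2.1)
          left_inv := fun y => by group
          right_inv := fun u => by group }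
      have f1 := Equiv.tsum_eq e (fun u : G =>
        ‖(if (u : G ⧸ N) = x.1 then m x.1 * ext0 N (c x.2.2) (tw u x.1 x.2.1) else 0 : ℂ)‖ ^ 2 *
          w u)
      rw [← f1]
      have hsN : Summable fun n : N => ‖c x.2.2 n‖ ^ 2 *
          w (sg N x.2.1 * n * (sg N ((x.1 : G ⧸ N)⁻¹ * x.2.1))⁻¹) := by
        refine Summable.of_nonneg_of_le (fun u => mul_nonneg (by positivity) (hw0 _)) (fun u => ?_)
          ((hws.comp_injective (hinj (sg N x.2.1)
            (sg N ((x.1 : G ⧸ N)⁻¹ * x.2.1))⁻¹)).mul_left (C x.2.2 ^ 2))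
        have := hw0 (sg N x.2.1 * u * (sg N ((x.1 : G ⧸ N)⁻¹ * x.2.1))⁻¹)
        simp only [Function.comp_apply]
        gcongr
        exact hC _ _
      have hsG : Summable fun y : G => ‖ext0 N (c x.2.2) y‖ ^ 2 *
          w (sg N x.2.1 * y * (sg N ((x.1 : G ⧸ N)⁻¹ * x.2.1))⁻¹) := by
        refine Summable.of_nonneg_of_le (fun u => mul_nonneg (by positivity) (hw0 _)) (fun u => ?_)
          ((hws.comp_injective e.injective).mul_left (C x.2.2 ^ 2))
        have := hw0 (sg N x.2.1 * u * (sg N ((x.1 : G ⧸ N)⁻¹ * x.2.1))⁻¹)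
        simp only [Function.comp_apply]
        gcongr
        · exact norm_ext0_le N (hC _) _
        · exact le_refl _
      have f2 : ∀ y : G, ‖(if ((e y : G) : G ⧸ N) = x.1 then
          m x.1 * ext0 N (c x.2.2) (tw (e y) x.1 x.2.1) else 0 : ℂ)‖ ^ 2 * w (e y) ≤
          2 ^ 2 * (‖ext0 N (c x.2.2) y‖ ^ 2 *
            w (sg N x.2.1 * y * (sg N ((x.1 : G ⧸ N)⁻¹ * x.2.1))⁻¹)) := by
        intro y
        have hwy := hw0 (e y)
        have hey : tw (e y) x.1 x.2.1 = y := by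
          simp only [htw]
          exact e.symm_apply_apply y
        rw [hey, ← mul_assoc, ← mul_pow]
        change _ * w (e y) ≤ _ * w (e y)
        gcongr
        split_ifs
        · rw [norm_mul]
          gcongr
          exact hm2 _
        · rw [norm_zero]
          positivity
      refine (Summable.tsum_le_tsum f2 (Summable.of_nonneg_of_le
        (fun u => mul_nonneg (by positivity) (hw0 _)) f2 (hsG.mul_left _))
        (hsG.mul_left _)).trans ?_
      rw [tsum_mul_left, tsum_mul_left, tsum_ext0 N (c x.2.2)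
        (fun y => w (sg N x.2.1 * y * (sg N ((x.1 : G ⧸ N)⁻¹ * x.2.1))⁻¹))]
      apply mul_le_mul_of_nonneg_left _ (by positivity)
      have f3 : ∀ n : N, ‖c x.2.2 n‖ ^ 2 *
          w (sg N x.2.1 * n * (sg N ((x.1 : G ⧸ N)⁻¹ * x.2.1))⁻¹) ≤ ‖c x.2.2 n‖ ^ 2 * wN n := by
        intro n
        gcongr
        exact Finset.single_le_sum (f := fun y : hm.toFinset × B =>
          w (sg N y.2 * n * (sg N ((y.1 : G ⧸ N)⁻¹ * y.2))⁻¹)) (fun y _ => hw0 _)
          (Finset.mem_univ (x.1, x.2.1))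
      exact Summable.tsum_le_tsum f3 hsN (Summable.of_nonneg_of_le
        (fun u => mul_nonneg (by positivity) (hwN0 _)) (fun u => by
          have := hwN0 u
          gcongr
          exact hC _ _) (hwNs.mul_left (C x.2.2 ^ 2)))
    have s2 : ∑ q : hm.toFinset,
        ε2 * √(∑' u : G, ‖(if (u : G ⧸ N) = q then m q * 1 else 0 : ℂ)‖ ^ 2 * w u) ≤ ε / 3 := by
      calc _ ≤ ∑ q : hm.toFinset, ε2 * (2 * W') := by
            apply Finset.sum_le_sum
            intro q _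
            exact mul_le_mul_of_nonneg_left (t2 q) hε20.le
        _ = ε2 * ((hm.toFinset.card : ℝ) * (2 * W')) := by
            rw [Finset.sum_const, Finset.card_univ, Fintype.card_coe, nsmul_eq_mul]; ring
        _ ≤ ε2 * ((hm.toFinset.card : ℝ) * (2 * W') + 1) := by
            gcongr; linarith
        _ = ε / 3 := by rw [hε2]; field_simp
    have s3 : ∑ x : hm.toFinset × (B × κ), Bd x.2.2 * √(∑' u : G,
        ‖(if (u : G ⧸ N) = x.1 then m x.1 * ext0 N (c x.2.2) (tw u x.1 x.2.1) else 0 : ℂ)‖ ^ 2 *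
          w u) ≤ ε / 3 := by
      calc _ ≤ ∑ x : hm.toFinset × (B × κ),
              Bd x.2.2 * (2 * √(∑' n : N, ‖c x.2.2 n‖ ^ 2 * wN n)) := by
            apply Finset.sum_le_sum
            intro x _
            exact mul_le_mul_of_nonneg_left (t3 x) (hBd0 _)
        _ = (hm.toFinset.card : ℝ) * B.card * (2 *
              ∑ k, Bd k * √(∑' n : N, ‖c k n‖ ^ 2 * wN n)) := by
            rw [Fintype.sum_prod_type]
            simp only [Fintype.sum_prod_type]
            have hk : ∑ k, Bd k * (2 * √(∑' n : N, ‖c k n‖ ^ 2 * wN n)) =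
                2 * ∑ k, Bd k * √(∑' n : N, ‖c k n‖ ^ 2 * wN n) := by
              rw [Finset.mul_sum]
              apply Finset.sum_congr rfl
              intro k _
              ring
            rw [hk, Finset.sum_const, Finset.sum_const, Finset.card_univ, Finset.card_univ,
              Fintype.card_coe, Fintype.card_coe, nsmul_eq_mul, nsmul_eq_mul]
            ring
        _ ≤ (hm.toFinset.card : ℝ) * B.card * (2 *
              (ε / (6 * ((hm.toFinset.card : ℝ) * B.card + 1)))) := by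
            gcongr
            exact hB.trans hε3c
        _ ≤ ((hm.toFinset.card : ℝ) * B.card + 1) * (2 *
              (ε / (6 * ((hm.toFinset.card : ℝ) * B.card + 1)))) := by
            gcongr
            linarith
        _ = ε / 3 := by field_simp; norm_num
    linarith

end Pool.Agent.Helper48.CE
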