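import Pool.Agent.Helper48.CE.Ext2

/-!
Local nature of the property `Star`.
-/

open scoped ENNReal ComplexConjugate
open Filter Topology

namespace Pool.Agent.Helper48.CE

open Pool.Agent.Helper84.GVN

section IncR

variable {A J : Type*}

theorem row_incR_self (a : A) (y : L2 J) : row a (incR a y) = y := by
  apply l2_ext
  intro j
  rw [row_apply]
  change inc a y (j, a) = _
  rw [inc_apply_self]

theorem row_incR_ne {a b : A} (h : a ≠ b) (y : L2 J) : row a (incR b y) = 0 := by
  apply l2_ext
  intro j
  rw [row_apply]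
  change inc b y (j, a) = _
  rw [inc_apply_ne h]
  rfl

open Classical in
theorem inner_incR (a b : A) (y y' : L2 J) :
    inner ℂ (incR a y) (incR b y') = if a = b then inner ℂ y y' else 0 := by
  have h := hasSum_inner_rows (incR a y) (incR b y')
  have h2 : HasSum (fun g => inner ℂ (row g (incR a y)) (row g (incR b y')))
      (inner ℂ (row a (incR a y)) (row a (incR b y'))) := by
    apply hasSum_single
    intro g hg
    rw [row_incR_ne hg, inner_zero_left]
  rw [h.unique h2, row_incR_self]
  split_ifs with hab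
  · rw [hab, row_incR_self]
  · rw [row_incR_ne hab, inner_zero_right]

theorem norm_incR (a : A) (y : L2 J) : ‖incR a y‖ = ‖y‖ := by
  classical
  have h := inner_incR a a y y
  rw [if_pos rfl, inner_self_eq_norm_sq_to_K, inner_self_eq_norm_sq_to_K] at h
  have h2 : ‖incR a y‖ ^ 2 = ‖y‖ ^ 2 := by exact_mod_cast h
  exact (sq_eq_sq₀ (norm_nonneg _) (norm_nonneg _)).1 h2

end IncR

theorem star_local {G : Type} [Group G] [Countable G]
    (h : ∀ F : Finset G, ∃ N : Subgroup G, (∀ g ∈ F, g ∈ N) ∧ Star N) : Star G := by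
  classical
  intro w hw0 hws ε hε
  -- choice of the subgroup
  obtain ⟨F, hF⟩ := (Metric.tendsto_nhds.1 hws.hasSum ((ε / 2) ^ 2) (by positivity)).exists
  obtain ⟨N, hFN, hN⟩ := h F
  set wN : N → ℝ := fun n => w n with hwN
  have hwNs : Summable wN := hws.comp_injective Subtype.val_injective
  obtain ⟨J, ι, κ, hJ, _, _, PN, RN, a, φ, b, c, Bd, hP, hR, hPR, ha, hφ, hφ0, hk, hb, hc, hk',
    hB⟩ := hN wN (fun n => hw0 n) hwNs (ε / 2) (by positivity)
  choose A hA using ha
  choose D hD using hφ
  choose C hC using hc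
  -- coset representatives
  let cl : G → Quotient (QuotientGroup.rightRel N) := fun g => Quotient.mk _ g
  let rp : G → G := fun g => (cl g).out
  have hrel : ∀ g h : G, cl g = cl h ↔ h * g⁻¹ ∈ N := by
    intro g h
    rw [show (cl g = cl h) = (Quotient.mk (QuotientGroup.rightRel N) g =
      Quotient.mk (QuotientGroup.rightRel N) h) from rfl, Quotient.eq]
    exact QuotientGroup.rightRel_apply
  have hrp : ∀ g, g * (rp g)⁻¹ ∈ N := by
    intro g
    have h1 : cl (rp g) = cl g := Quotient.out_eq (cl g)
    exact (hrel _ _).1 h1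
  have hrpeq : ∀ g h, cl g = cl h → rp g = rp h := fun g h hgh => by
    change (cl g).out = (cl h).out
    rw [hgh]
  let nn : G → N := fun g => ⟨g * (rp g)⁻¹, hrp g⟩
  have hnn : ∀ g h (hgh : g * h⁻¹ ∈ N), nn g * (nn h)⁻¹ = ⟨g * h⁻¹, hgh⟩ := by
    intro g h hgh
    have h1 : cl h = cl g := (hrel h g).2 hgh
    apply Subtype.ext
    change g * (rp g)⁻¹ * (h * (rp h)⁻¹)⁻¹ = g * h⁻¹
    rw [hrpeq h g h1]
    group
  have hcl : Countable (Quotient (QuotientGroup.rightRel N)) := Quotient.countable
  have hinner : ∀ g h : G, inner ℂ (incR (cl g) (PN (nn g))) (incR (cl h) (RN (nn h))) =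
      if g * h⁻¹ ∈ N then inner ℂ (PN (nn g)) (RN (nn h)) else 0 := by
    intro g h
    rw [inner_incR]
    by_cases hgh : g * h⁻¹ ∈ N
    · rw [if_pos hgh, if_pos ((hrel h g).2 hgh).symm]
    · rw [if_neg hgh, if_neg (fun h1 => hgh ((hrel h g).1 h1.symm))]
  refine ⟨Quotient (QuotientGroup.rightRel N) × J, ι, Unit ⊕ κ, inferInstance, inferInstance,
    inferInstance, fun g => incR (cl g) (PN (nn g)), fun g => incR (cl g) (RN (nn g)),
    fun i g => a i (nn g), fun i => ext0 N (φ i),
    Sum.elim (fun _ _ => 1) (fun k g => b k (nn g)),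
    Sum.elim (fun _ u => if u ∈ N then 0 else 1) (fun k => ext0 N (c k)),
    Sum.elim (fun _ => 1) Bd, ?_, ?_, ?_, ?_, ?_, ?_, ?_, ?_, ?_, ?_, ?_⟩
  · intro g
    rw [norm_incR]
    exact (hP _).trans (by linarith)
  · intro g
    rw [norm_incR]
    exact (hR _).trans (by linarith)
  · intro g
    rw [← map_sub, norm_incR]
    exact (hPR _).trans (by linarith)
  · exact fun i => ⟨A i, fun g => hA i _⟩
  · exact fun i => ⟨D i, norm_ext0_le N (hD i)⟩
  · exact fun i => ext0_tendsto N (hφ0 i)
  · intro g h
    rw [hinner]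
    split_ifs with hgh
    · rw [hk, hnn g h hgh]
      apply Finset.sum_congr rfl
      intro i _
      beta_reduce
      rw [ext0, dif_pos hgh]
    · symm
      apply Finset.sum_eq_zero
      intro i _
      beta_reduce
      rw [ext0, dif_neg hgh, mul_zero]
  · rintro (_ | k) g
    · simp
    · exact hb k _
  · rintro (_ | k)
    · refine ⟨1, fun u => ?_⟩
      simp only [Sum.elim_inl]
      split_ifs <;> simp
    · exact ⟨C k, norm_ext0_le N (hC k)⟩
  · intro g h
    rw [hinner, Fintype.sum_sum_type]
    simp only [Sum.elim_inl, Sum.elim_inr, Finset.univ_unique, Finset.sum_singleton]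
    split_ifs with hgh
    · rw [hk', hnn g h hgh, mul_zero, zero_add]
      apply Finset.sum_congr rfl
      intro i _
      rw [ext0, dif_pos hgh]
    · rw [sub_zero, mul_one]
      symm
      rw [add_eq_left]
      apply Finset.sum_eq_zero
      intro i _
      rw [ext0, dif_neg hgh, mul_zero]
  · simp only [Fintype.sum_sum_type, Sum.elim_inl, Sum.elim_inr, Finset.univ_unique,
      Finset.sum_singleton, one_mul]
    have t1 : √(∑' u, ‖(if u ∈ N then 0 else 1 : ℂ)‖ ^ 2 * w u) ≤ ε / 2 := by
      apply Real.sqrt_le_iff.2 ⟨by positivity, ?_⟩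
      have hs1 : HasSum (fun u => if u ∈ F then w u else 0) (∑ u ∈ F, w u) := by
        have h2 : HasSum (fun u => if u ∈ F then w u else 0) (∑ u ∈ F, if u ∈ F then w u else 0) :=
          hasSum_sum_of_ne_finset_zero (fun n hn => by simp [hn])
        rwa [Finset.sum_congr rfl (fun n hn => if_pos hn)] at h2
      have hs2 := hws.hasSum.sub hs1
      have hle : ∀ u, ‖(if u ∈ N then 0 else 1 : ℂ)‖ ^ 2 * w u ≤
          w u - (if u ∈ F then w u else 0) := by
        intro u
        by_cases hu : u ∈ F
        · rw [if_pos (hFN u hu), if_pos hu]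
          simp
        · rw [if_neg hu, sub_zero]
          have := hw0 u
          split_ifs
          · simpa using this
          · simp
      have h3 := Summable.tsum_le_tsum hle (Summable.of_nonneg_of_le
        (fun u => mul_nonneg (by positivity) (hw0 _)) hle hs2.summable) hs2.summable
      rw [hs2.tsum_eq] at h3
      refine h3.trans ?_
      rw [Real.dist_eq] at hF
      have := (abs_lt.1 hF).1
      linarith
    have t2 : ∑ k, Bd k * √(∑' u, ‖ext0 N (c k) u‖ ^ 2 * w u) ≤ ε / 2 := by
      refine le_trans (le_of_eq ?_) hB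
      apply Finset.sum_congr rfl
      intro k _
      rw [tsum_ext0]
    linarith

end Pool.Agent.Helper48.CE
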