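import Pool.Agent.Helper48.CE.Mix
import Pool.Agent.Helper48.CE.Union
import Pool.Agent.Helper48.CE.Ext3

/-!
The class of groups to which the theorem applies.
-/

open scoped ENNReal ComplexConjugate InnerProductSpace
open Filter Topology

namespace Pool.Agent.Helper48.CE

open Pool.Agent.Helper84.GVN

/-- The Haagerup property implies the weak Haagerup property with constant one. -/
theorem wh_of_haagerup {G : Type} [Group G] (h : IsHaagerup G) : WH G := by
  intro F ε hε
  obtain ⟨π, ξ, hξ, h0, hF⟩ := h F ε hε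
  refine ⟨fun g => inner ℂ ξ (π g ξ), fun g => π g⁻¹ ξ, fun g => π g⁻¹ ξ, h0, fun q hq => ?_,
    fun q => ?_, fun q => ?_, fun q q' => ?_⟩
  · have h1 : (1 : ℂ) - inner ℂ ξ (π q ξ) = inner ℂ ξ (ξ - π q ξ) := by
      rw [inner_sub_right, inner_self_eq_norm_sq_to_K, hξ]
      simp
    rw [h1]
    refine (norm_inner_le_norm _ _).trans ?_
    rw [hξ, one_mul, norm_sub_rev]
    exact hF q hq
  · rw [LinearIsometryEquiv.norm_map, hξ]
    linarith
  · rw [LinearIsometryEquiv.norm_map, hξ]
    linarith
  · have h2 : π q'⁻¹ ξ = π q⁻¹ (π (q * q'⁻¹) ξ) := by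
      have : π q'⁻¹ = π q⁻¹ * π (q * q'⁻¹) := by
        rw [← map_mul]
        congr 1
        group
      rw [this]
      rfl
    change inner ℂ (π q⁻¹ ξ) (π q'⁻¹ ξ) = inner ℂ ξ (π (q * q'⁻¹) ξ)
    rw [h2, LinearIsometryEquiv.inner_map_map]

/-- Cowling-Haagerup constant one implies the weak Haagerup property with constant one. -/
theorem wh_of_cmap {G : Type} [Group G] (h : CMAP G) : WH G := by
  intro F ε hε
  obtain ⟨m, p, r, h0, h1, h2, h3, h4⟩ := h F ε hε
  refine ⟨m, p, r, ?_, h1, h2, h3, h4⟩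
  apply tendsto_nhds_of_eventually_eq
  rw [Filter.eventually_cofinite]
  exact h0

/-- The unitaries given by a multiplicative family of isometries. -/
noncomputable def homU {G Λ : Type*} [Group Λ] (v : Λ → (L2 G →L[ℂ] L2 G)) (h1 : v 1 = 1)
    (hm : ∀ s t, v (s * t) = v s * v t) (hs : ∀ t, star (v t) * v t = 1) :
    Λ →* (L2 G ≃ₗᵢ[ℂ] L2 G) where
  toFun t := Unitary.linearIsometryEquiv ⟨v t, by
    have e1 : v t * v t⁻¹ = 1 := by rw [← hm, mul_inv_cancel, h1]
    have e2 : star (v t) = v t⁻¹ := by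
      calc star (v t) = star (v t) * (v t * v t⁻¹) := by rw [e1, mul_one]
        _ = v t⁻¹ := by rw [← mul_assoc, hs, one_mul]
    refine ⟨hs t, ?_⟩
    rw [e2, e1]⟩
  map_one' := by
    ext f : 1
    change v 1 f = f
    rw [h1]
    rfl
  map_mul' x y := by
    ext f : 1
    change v (x * y) f = v x (v y f)
    rw [hm]
    rfl

/-- Coarse embeddability from the property `Star` for groups of unitaries. -/
theorem coarse_of_hom {G Λ : Type} [Group G] [Countable G] [Group Λ] [Countable Λ] (hG : Star G)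
    (v : Λ → (L2 G →L[ℂ] L2 G)) (hR : ∀ t, v t ∈ RR G) (h1 : v 1 = 1)
    (hm : ∀ s t, v (s * t) = v s * v t) (hs : ∀ t, star (v t) * v t = 1)
    (h0 : ∀ x y : L2 G, Tendsto (fun t => inner ℂ x (v t y)) cofinite (𝓝 0)) :
    ∃ F : Λ → lp (fun _ : ℕ => ℝ) 2,
      (∀ K : Finset Λ, ∃ C : ℝ, ∀ x y : Λ, x⁻¹ * y ∈ K → ‖F x - F y‖ ≤ C) ∧
      (∀ R : ℝ, ∃ K : Finset Λ, ∀ x y : Λ, ‖F x - F y‖ ≤ R → x⁻¹ * y ∈ K) := by
  apply coarse_of_star hG (homU v h1 hm hs)
  · intro t k f
    exact hR t k f
  · intro g
    have h2 := h0 (dl g) (dl 1)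
    simp only [inner_dl_left] at h2
    exact h2

/-- The class of groups to which the theorem applies: the smallest class of groups that contains
every group with the weak Haagerup property with constant one and is closed under subgroups,
direct products, locally directed unions and extensions with exact quotient of Cowling-Haagerup
constant one. -/
inductive Cls : ∀ (G : Type) [Group G], Prop
  | wh (G : Type) [Group G] (h : WH G) : Cls G
  | sub (G H : Type) [Group G] [Group H] (f : H →* G) (hf : Function.Injective f) (h : Cls G) :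
      Cls H
  | prod (G H : Type) [Group G] [Group H] (hG : Cls G) (hH : Cls H) : Cls (G × H)
  | union (G : Type) [Group G] [Countable G] (N : Finset G → Subgroup G)
      (hN : ∀ F, ∀ g ∈ F, g ∈ N F) (h : ∀ F, Cls (N F)) : Cls G
  | ext (G : Type) [Group G] [Countable G] (N : Subgroup G) [N.Normal] (h : Cls N)
      (hA : PropA (G ⧸ N)) (hC : CMAP (G ⧸ N)) : Cls G

theorem star_of_cls {G : Type} [Group G] (h : Cls G) : Star G := by
  induction h with
  | wh G h => exact star_of_wh h
  | sub G H f hf h ih => exact star_of_injective ih f hf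
  | prod G H hG hH ih1 ih2 => exact star_prod ih1 ih2
  | union G N hN h ih => exact star_local fun F => ⟨N F, hN F, ih F⟩
  | ext G N h hA hC ih => exact star_ext N ih hA hC

end Pool.Agent.Helper48.CE
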