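import Pool.Agent.Helper48.CE.Ext

/-!
Stability of the property `Star`: weak Haagerup groups, subgroups, products.
-/

open scoped ENNReal ComplexConjugate
open Filter Topology

namespace Pool.Agent.Helper48.CE

open Pool.Agent.Helper84.GVN

/-- The weak Haagerup property with constant one: Herz-Schur multipliers of norm close to one,
vanishing at infinity, that are close to one on a given finite set. -/
def WH (G : Type) [Group G] : Prop :=
  ∀ (F : Finset G) (ε : ℝ), 0 < ε → ∃ (m : G → ℂ) (p r : G → L2 ℕ),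
    Tendsto m cofinite (𝓝 0) ∧ (∀ q ∈ F, ‖1 - m q‖ ≤ ε) ∧ (∀ q, ‖p q‖ ≤ 1 + ε) ∧
    (∀ q, ‖r q‖ ≤ 1 + ε) ∧ ∀ q q', inner ℂ (p q) (r q') = m (q * q'⁻¹)

theorem norm_sub_of_inner {H : Type*} [NormedAddCommGroup H] [InnerProductSpace ℂ H] {x y : H}
    {δ ε : ℝ} (hε : 0 ≤ ε) (hδ1 : δ ≤ 1) (hδε : δ ≤ ε ^ 2 / 8) (hx : ‖x‖ ≤ 1 + δ)
    (hy : ‖y‖ ≤ 1 + δ) (hxy : ‖1 - inner ℂ x y‖ ≤ δ) : ‖x - y‖ ≤ ε := by
  apply (sq_le_sq₀ (norm_nonneg _) hε).1
  have e1 : ‖x - y‖ ^ 2 = ‖x‖ ^ 2 - 2 * (inner ℂ x y).re + ‖y‖ ^ 2 := norm_sub_sq (𝕜 := ℂ) _ _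
  rw [e1]
  have e3 : 1 - δ ≤ (inner ℂ x y : ℂ).re := by
    have := (Complex.abs_re_le_norm _).trans hxy
    rw [Complex.sub_re, Complex.one_re] at this
    linarith [le_abs_self (1 - (inner ℂ x y : ℂ).re)]
  have e6 := norm_nonneg x
  have e7 := norm_nonneg y
  nlinarith

theorem norm_mult_le {Q : Type*} [Group Q] {m : Q → ℂ} {p r : Q → L2 ℕ} {ε : ℝ} (hε : ε ≤ 1 / 4)
    (hp : ∀ q, ‖p q‖ ≤ 1 + ε) (hr : ∀ q, ‖r q‖ ≤ 1 + ε)
    (hpr : ∀ q q', inner ℂ (p q) (r q') = m (q * q'⁻¹)) (q : Q) : ‖m q‖ ≤ 2 := by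
  have e1 : m q = inner ℂ (p q) (r 1) := by rw [hpr]; simp
  rw [e1]
  refine (norm_inner_le_norm _ _).trans ?_
  have e2 := hp q
  have e3 := hr 1
  have e4 : 0 ≤ 1 + ε := (norm_nonneg _).trans e2
  calc ‖p q‖ * ‖r 1‖ ≤ (1 + ε) * (1 + ε) := by gcongr
    _ ≤ 2 := by nlinarith

theorem star_of_wh {G : Type} [Group G] (h : WH G) : Star G := by
  intro w hw0 hws ε hε
  obtain ⟨U, η, hη, hU⟩ := tail hw0 hws 3 (by norm_num) ε hε
  classical
  set δ : ℝ := min (min η (1 / 4)) (min ε (ε ^ 2 / 8)) with hδ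
  have hδ0 : 0 < δ := lt_min (lt_min hη (by norm_num)) (lt_min hε (by positivity))
  have hδη : δ ≤ η := (min_le_left _ _).trans (min_le_left _ _)
  have hδ4 : δ ≤ 1 / 4 := (min_le_left _ _).trans (min_le_right _ _)
  have hδε : δ ≤ ε := (min_le_right _ _).trans (min_le_left _ _)
  have hδs : δ ≤ ε ^ 2 / 8 := (min_le_right _ _).trans (min_le_right _ _)
  obtain ⟨m, p, r, hm0, hmF, hp, hr, hpr⟩ := h (insert 1 U) δ hδ0
  have hm2 := norm_mult_le hδ4 hp hr hpr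
  have hm3 : ∀ u, ‖1 - m u‖ ≤ 3 := fun u => by
    refine (norm_sub_le _ _).trans ?_
    rw [norm_one]
    linarith [hm2 u]
  refine ⟨ℕ, Unit, Unit, inferInstance, inferInstance, inferInstance, p, r, fun _ _ => 1,
    fun _ => m, fun _ _ => 1, fun _ u => 1 - m u, fun _ => 1, ?_, ?_, ?_, ?_, ?_, ?_, ?_, ?_, ?_,
    ?_, ?_⟩
  · exact fun g => (hp g).trans (by linarith)
  · exact fun g => (hr g).trans (by linarith)
  · intro g
    apply norm_sub_of_inner hε.le (by linarith) hδs (hp g) (hr g)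
    rw [hpr, mul_inv_cancel]
    exact hmF 1 (Finset.mem_insert_self _ _)
  · exact fun _ => ⟨1, fun g => by simp⟩
  · exact fun _ => ⟨2, hm2⟩
  · exact fun _ => hm0
  · intro g h
    simp [hpr]
  · intro _ g
    simp
  · exact fun _ => ⟨3, hm3⟩
  · intro g h
    simp [hpr]
  · simp only [Finset.univ_unique, Finset.sum_singleton, one_mul]
    exact hU (fun u => 1 - m u) hm3 fun u hu => (hmF u (Finset.mem_insert_of_mem hu)).trans hδη

theorem star_of_injective {G H : Type} [Group G] [Group H] (hG : Star G) (f : H →* G)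
    (hf : Function.Injective f) : Star H := by
  intro w hw0 hws ε hε
  set w' : G → ℝ := Function.extend f w 0 with hw'
  have hw'0 : ∀ g, 0 ≤ w' g := by
    intro g
    by_cases hg : ∃ h, f h = g
    · obtain ⟨h, rfl⟩ := hg
      rw [hw', hf.extend_apply]
      exact hw0 h
    · rw [hw', Function.extend_apply' _ _ _ hg]
      simp
  have hw's : Summable w' := ((hasSum_extend_zero hf).2 hws.hasSum).summable
  obtain ⟨J, ι, κ, hJ, _, _, P, R, a, φ, b, c, B, hP, hR, hPR, ha, hφ, hφ0, hk, hb, hc, hk', hB⟩ :=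
    hG w' hw'0 hw's ε hε
  refine ⟨J, ι, κ, hJ, inferInstance, inferInstance, fun h => P (f h), fun h => R (f h),
    fun i h => a i (f h), fun i h => φ i (f h), fun k h => b k (f h), fun k h => c k (f h), B,
    fun g => hP _, fun g => hR _, fun g => hPR _, fun i => ?_, fun i => ?_, fun i => ?_, ?_,
    fun i g => hb i _, fun i => ?_, ?_, ?_⟩
  · obtain ⟨A, hA⟩ := ha i
    exact ⟨A, fun g => hA _⟩
  · obtain ⟨A, hA⟩ := hφ i
    exact ⟨A, fun g => hA _⟩
  · exact (hφ0 i).comp hf.tendsto_cofinite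
  · intro g h
    rw [hk]
    simp only [map_mul, map_inv]
  · obtain ⟨A, hA⟩ := hc i
    exact ⟨A, fun g => hA _⟩
  · intro g h
    rw [hk']
    simp only [map_mul, map_inv]
  · refine le_trans (le_of_eq ?_) hB
    apply Finset.sum_congr rfl
    intro k _
    congr 2
    obtain ⟨A, hA⟩ := hc k
    have h1 : (fun g => ‖c k g‖ ^ 2 * w' g) =
        Function.extend f (fun h => ‖c k (f h)‖ ^ 2 * w h) 0 := by
      funext g
      by_cases hg : ∃ h, f h = g
      · obtain ⟨h, rfl⟩ := hg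
        rw [hf.extend_apply, hw', hf.extend_apply]
      · rw [Function.extend_apply' _ _ _ hg, hw', Function.extend_apply' _ _ _ hg]
        simp
    have h2 : Summable fun h => ‖c k (f h)‖ ^ 2 * w h :=
      Summable.of_nonneg_of_le (fun u => mul_nonneg (by positivity) (hw0 u)) (fun u => by
        have := hw0 u
        gcongr
        exact hA _) (hws.mul_left (A ^ 2))
    rw [h1]
    exact ((hasSum_extend_zero hf).2 h2.hasSum).tsum_eq.symm

section Prod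

theorem norm_dmul_const {A J : Type*} (y : L2 J) (hy) (f : L2 A) :
    ‖dmul (fun _ : A => y) hy f‖ = ‖f‖ * ‖y‖ := by
  apply (sq_eq_sq₀ (norm_nonneg _) (by positivity)).1
  rw [norm_dmul_sq, mul_pow, norm_sq_eq f, tsum_mul_right]

/-- The tensor product of two vectors. -/
noncomputable def ten {A J : Type*} (f : L2 A) (y : L2 J) : L2 (A × J) :=
  dmul (fun _ : A => y) ⟨_, fun _ => le_rfl⟩ f

theorem norm_ten {A J : Type*} (f : L2 A) (y : L2 J) : ‖ten f y‖ = ‖f‖ * ‖y‖ :=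
  norm_dmul_const _ _ _

theorem inner_ten {A J : Type*} (f f' : L2 A) (y y' : L2 J) :
    inner ℂ (ten f y) (ten f' y') = inner ℂ f f' * inner ℂ y y' := inner_dmul_const _ _ _ _ _ _

theorem ten_sub_le {A J : Type*} (f f' : L2 A) (y y' : L2 J) :
    ‖ten f y - ten f' y'‖ ≤ ‖f - f'‖ * ‖y‖ + ‖f'‖ * ‖y - y'‖ := by
  have h : ten f y - ten f' y' = ten (f - f') y + ten f' (y - y') := by
    apply l2_ext
    intro p
    change f p.1 * y p.2 - f' p.1 * y' p.2 = (f - f') p.1 * y p.2 + f' p.1 * (y - y') p.2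
    simp only [lp.coeFn_sub, Pi.sub_apply]
    ring
  rw [h]
  refine (norm_add_le _ _).trans ?_
  rw [norm_ten, norm_ten]

theorem prod_tendsto {A J : Type*} {φ : A → ℂ} {ψ : J → ℂ} (hφ : ∃ C, ∀ g, ‖φ g‖ ≤ C)
    (hψ : ∃ C, ∀ g, ‖ψ g‖ ≤ C) (hφ0 : Tendsto φ cofinite (𝓝 0)) (hψ0 : Tendsto ψ cofinite (𝓝 0)) :
    Tendsto (fun x : A × J => φ x.1 * ψ x.2) cofinite (𝓝 0) := by
  obtain ⟨C, hC⟩ := hφ
  obtain ⟨D, hD⟩ := hψ
  rw [Metric.tendsto_nhds]
  intro δ hδ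
  have h1 := Metric.tendsto_nhds.1 hφ0 (δ / (|D| + 1)) (by positivity)
  have h2 := Metric.tendsto_nhds.1 hψ0 (δ / (|C| + 1)) (by positivity)
  rw [Filter.eventually_cofinite] at h1 h2 ⊢
  apply (h1.prod h2).subset
  rintro ⟨x, y⟩ hxy
  simp only [Set.mem_setOf_eq, dist_zero_right, not_lt] at hxy
  have h3 : ‖φ x‖ ≤ |C| := (hC x).trans (le_abs_self _)
  have h4 : ‖ψ y‖ ≤ |D| := (hD y).trans (le_abs_self _)
  rw [norm_mul] at hxy
  constructor
  · simp only [Set.mem_setOf_eq, dist_zero_right, not_lt]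
    rw [div_le_iff₀ (by positivity)]
    refine hxy.trans ?_
    gcongr
    linarith
  · simp only [Set.mem_setOf_eq, dist_zero_right, not_lt]
    rw [div_le_iff₀ (by positivity)]
    refine hxy.trans ?_
    rw [mul_comm]
    gcongr
    linarith

theorem star_prod {G H : Type} [Group G] [Group H] (hG : Star G) (hH : Star H) : Star (G × H) := by
  classical
  intro w hw0 hws ε hε
  -- marginals
  set w1 : G → ℝ := fun g => ∑' h, w (g, h) with hw1
  set w2 : H → ℝ := fun h => ∑' g, w (g, h) with hw2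
  have hf1 : ∀ g, Summable fun h => w (g, h) := fun g => hws.prod_factor g
  have hf2 : ∀ h, Summable fun g => w (g, h) := fun h => hws.comp_injective
    (i := fun g : G => (g, h)) (fun a b hab => by simpa using hab)
  have hw10 : ∀ g, 0 ≤ w1 g := fun g => tsum_nonneg fun h => hw0 _
  have hw20 : ∀ g, 0 ≤ w2 g := fun g => tsum_nonneg fun h => hw0 _
  have hw1s : Summable w1 := hws.prod
  have hw2s : Summable w2 := by
    have h := (Equiv.summable_iff (Equiv.prodComm H G)).2 hws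
    exact Summable.prod (f := fun p : H × G => w (p.2, p.1)) h
  have hint1 : ∀ c : G → ℂ, (∃ A, ∀ g, ‖c g‖ ≤ A) →
      ∑' x : G × H, ‖c x.1‖ ^ 2 * w x = ∑' g, ‖c g‖ ^ 2 * w1 g := by
    rintro c ⟨A, hA⟩
    have h1 : Summable fun x : G × H => ‖c x.1‖ ^ 2 * w x :=
      Summable.of_nonneg_of_le (fun u => mul_nonneg (by positivity) (hw0 u)) (fun u => by
        have := hw0 u
        gcongr
        exact hA _) (hws.mul_left (A ^ 2))
    rw [h1.tsum_prod]
    congr 1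
    funext g
    rw [hw1]
    simp only
    rw [tsum_mul_left]
  have hint2 : ∀ c : H → ℂ, (∃ A, ∀ g, ‖c g‖ ≤ A) →
      ∑' x : G × H, ‖c x.2‖ ^ 2 * w x = ∑' g, ‖c g‖ ^ 2 * w2 g := by
    rintro c ⟨A, hA⟩
    have hsw : Summable fun x : H × G => w (x.2, x.1) :=
      (Equiv.summable_iff (Equiv.prodComm H G)).2 hws
    have h1 : Summable fun x : H × G => ‖c x.1‖ ^ 2 * w (x.2, x.1) :=
      Summable.of_nonneg_of_le (fun u => mul_nonneg (by positivity) (hw0 _)) (fun u => by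
        have := hw0 (u.2, u.1)
        gcongr
        exact hA _) (hsw.mul_left (A ^ 2))
    have h2 := Equiv.tsum_eq (Equiv.prodComm H G) (fun x : G × H => ‖c x.2‖ ^ 2 * w x)
    rw [← h2]
    change ∑' x : H × G, ‖c x.1‖ ^ 2 * w (x.2, x.1) = _
    rw [h1.tsum_prod]
    congr 1
    funext g
    rw [hw2]
    simp only
    rw [tsum_mul_left]
  set ε1 : ℝ := min ε 1 / 8 with hε1
  have hm0 : 0 < min ε 1 := lt_min hε one_pos
  have hε10 : 0 < ε1 := by positivity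
  have hε1ε : ε1 ≤ ε / 8 := by
    have := min_le_left ε 1
    rw [hε1]; linarith
  have hε11 : ε1 ≤ 1 / 8 := by
    have := min_le_right ε 1
    rw [hε1]; linarith
  obtain ⟨J1, ι1, κ1, hJ1, _, _, P1, R1, a1, φ1, b1, c1, B1, hP1, hR1, hPR1, ha1, hφ1, hφ01, hk1,
    hb1, hc1, hk1', hB1⟩ := hG w1 hw10 hw1s ε1 hε10
  choose A1 hA1 using ha1
  choose D1 hD1 using hφ1
  have hA10 : ∀ i, 0 ≤ A1 i := fun i => (norm_nonneg _).trans (hA1 i 1)
  have hD10 : ∀ i, 0 ≤ D1 i := fun i => (norm_nonneg _).trans (hD1 i 1)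
  set C1 : ℝ := ∑ i, A1 i * D1 i with hC1
  have hC10 : 0 ≤ C1 := Finset.sum_nonneg fun i _ => mul_nonneg (hA10 i) (hD10 i)
  set ε2 : ℝ := min ε1 (ε / (2 * (C1 + 1))) with hε2
  have hε20 : 0 < ε2 := lt_min hε10 (by positivity)
  have hε21 : ε2 ≤ ε1 := min_le_left _ _
  have hε2C : ε2 ≤ ε / (2 * (C1 + 1)) := min_le_right _ _
  obtain ⟨J2, ι2, κ2, hJ2, _, _, P2, R2, a2, φ2, b2, c2, B2, hP2, hR2, hPR2, ha2, hφ2, hφ02, hk2,
    hb2, hc2, hk2', hB2⟩ := hH w2 hw20 hw2s ε2 hε20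
  choose A2 hA2 using ha2
  choose D2 hD2 using hφ2
  have hB20 : ∀ i, 0 ≤ B2 i := fun i => (norm_nonneg _).trans (hb2 i 1)
  have hD20 : ∀ i, 0 ≤ D2 i := fun i => (norm_nonneg _).trans (hD2 i 1)
  have hA20 : ∀ i, 0 ≤ A2 i := fun i => (norm_nonneg _).trans (hA2 i 1)
  have hP2' : ∀ g, ‖P2 g‖ ≤ 1 + ε1 := fun g => (hP2 g).trans (by linarith)
  have hR2' : ∀ g, ‖R2 g‖ ≤ 1 + ε1 := fun g => (hR2 g).trans (by linarith)
  have hmul : (1 + ε1) * (1 + ε1) ≤ 1 + ε := by nlinarith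
  refine ⟨J1 × J2, ι1 × ι2, κ1 ⊕ (ι1 × κ2), inferInstance, inferInstance, inferInstance,
    fun x => ten (P1 x.1) (P2 x.2), fun x => ten (R1 x.1) (R2 x.2),
    fun i x => a1 i.1 x.1 * a2 i.2 x.2, fun i x => φ1 i.1 x.1 * φ2 i.2 x.2,
    Sum.elim (fun k x => b1 k x.1) (fun k x => a1 k.1 x.1 * b2 k.2 x.2),
    Sum.elim (fun k x => c1 k x.1) (fun k x => φ1 k.1 x.1 * c2 k.2 x.2),
    Sum.elim B1 (fun k => A1 k.1 * B2 k.2), ?_, ?_, ?_, ?_, ?_, ?_, ?_, ?_, ?_, ?_, ?_⟩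
  · intro x
    rw [norm_ten]
    refine le_trans ?_ hmul
    exact mul_le_mul (hP1 _) (hP2' _) (norm_nonneg _) (by positivity)
  · intro x
    rw [norm_ten]
    refine le_trans ?_ hmul
    exact mul_le_mul (hR1 _) (hR2' _) (norm_nonneg _) (by positivity)
  · intro x
    refine (ten_sub_le _ _ _ _).trans ?_
    have e1 : ‖P1 x.1 - R1 x.1‖ * ‖P2 x.2‖ ≤ ε1 * (1 + ε1) :=
      mul_le_mul (hPR1 _) (hP2' _) (norm_nonneg _) hε10.le
    have e2 : ‖R1 x.1‖ * ‖P2 x.2 - R2 x.2‖ ≤ (1 + ε1) * ε1 :=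
      mul_le_mul (hR1 _) ((hPR2 _).trans hε21) (norm_nonneg _) (by positivity)
    nlinarith
  · intro i
    refine ⟨A1 i.1 * A2 i.2, fun x => ?_⟩
    rw [norm_mul]
    exact mul_le_mul (hA1 _ _) (hA2 _ _) (norm_nonneg _) (hA10 _)
  · intro i
    refine ⟨D1 i.1 * D2 i.2, fun x => ?_⟩
    rw [norm_mul]
    exact mul_le_mul (hD1 _ _) (hD2 _ _) (norm_nonneg _) (hD10 _)
  · intro i
    exact prod_tendsto ⟨_, hD1 i.1⟩ ⟨_, hD2 i.2⟩ (hφ01 _) (hφ02 _)
  · intro g h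
    rw [inner_ten, hk1, hk2, Fintype.sum_prod_type, Finset.sum_mul_sum]
    apply Finset.sum_congr rfl
    intro i _
    apply Finset.sum_congr rfl
    intro j _
    change _ = a1 i g.1 * a2 j g.2 * (φ1 i (g.1 * h.1⁻¹) * φ2 j (g.2 * h.2⁻¹))
    ring
  · rintro (k | k) x
    · exact hb1 k _
    · simp only [Sum.elim_inr]
      rw [norm_mul]
      exact mul_le_mul (hA1 _ _) (hb2 _ _) (norm_nonneg _) (hA10 _)
  · rintro (k | k)
    · obtain ⟨A, hA⟩ := hc1 k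
      exact ⟨A, fun x => hA _⟩
    · obtain ⟨A, hA⟩ := hc2 k.2
      refine ⟨D1 k.1 * A, fun x => ?_⟩
      simp only [Sum.elim_inr]
      rw [norm_mul]
      exact mul_le_mul (hD1 _ _) (hA _) (norm_nonneg _) (hD10 _)
  · intro g h
    rw [inner_ten]
    have e1 : (1 : ℂ) - inner ℂ (P1 g.1) (R1 h.1) * inner ℂ (P2 g.2) (R2 h.2) =
        (1 - inner ℂ (P1 g.1) (R1 h.1)) +
          inner ℂ (P1 g.1) (R1 h.1) * (1 - inner ℂ (P2 g.2) (R2 h.2)) := by ring
    rw [e1, hk1', hk2', hk1, Fintype.sum_sum_type, Fintype.sum_prod_type, Finset.sum_mul_sum]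
    congr 1
    apply Finset.sum_congr rfl
    intro i _
    apply Finset.sum_congr rfl
    intro j _
    change _ = a1 i g.1 * b2 j g.2 * (φ1 i (g.1 * h.1⁻¹) * c2 j (g.2 * h.2⁻¹))
    ring
  · rw [Fintype.sum_sum_type]
    have s1 : ∑ k, Sum.elim B1 (fun k : ι1 × κ2 => A1 k.1 * B2 k.2) (Sum.inl k) *
        √(∑' u : G × H, ‖Sum.elim (fun k (x : G × H) => c1 k x.1)
          (fun (k : ι1 × κ2) x => φ1 k.1 x.1 * c2 k.2 x.2) (Sum.inl k) u‖ ^ 2 * w u) ≤ ε / 2 := by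
      simp only [Sum.elim_inl]
      refine le_trans (le_of_eq ?_) (hB1.trans (by linarith))
      apply Finset.sum_congr rfl
      intro k _
      rw [hint1 _ (hc1 k)]
    have s2 : ∑ k, Sum.elim B1 (fun k : ι1 × κ2 => A1 k.1 * B2 k.2) (Sum.inr k) *
        √(∑' u : G × H, ‖Sum.elim (fun k (x : G × H) => c1 k x.1)
          (fun (k : ι1 × κ2) x => φ1 k.1 x.1 * c2 k.2 x.2) (Sum.inr k) u‖ ^ 2 * w u) ≤ ε / 2 := by
      simp only [Sum.elim_inr]
      have e1 : ∀ k : ι1 × κ2, A1 k.1 * B2 k.2 *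
          √(∑' u : G × H, ‖φ1 k.1 u.1 * c2 k.2 u.2‖ ^ 2 * w u) ≤
          (A1 k.1 * D1 k.1) * (B2 k.2 * √(∑' u, ‖c2 k.2 u‖ ^ 2 * w2 u)) := by
        intro k
        have e2 : √(∑' u : G × H, ‖φ1 k.1 u.1 * c2 k.2 u.2‖ ^ 2 * w u) ≤
            D1 k.1 * √(∑' u, ‖c2 k.2 u‖ ^ 2 * w2 u) := by
          rw [← hint2 _ (hc2 k.2)]
          have e3 : D1 k.1 = √(D1 k.1 ^ 2) := (Real.sqrt_sq (hD10 _)).symm
          rw [e3, ← Real.sqrt_mul (by positivity), ← tsum_mul_left]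
          apply Real.sqrt_le_sqrt
          obtain ⟨A, hA⟩ := hc2 k.2
          have e4 : ∀ u : G × H, ‖φ1 k.1 u.1 * c2 k.2 u.2‖ ^ 2 * w u ≤
              D1 k.1 ^ 2 * (‖c2 k.2 u.2‖ ^ 2 * w u) := by
            intro u
            rw [norm_mul, mul_pow, mul_assoc]
            have := hw0 u
            gcongr
            exact hD1 _ _
          have e5 : Summable fun u : G × H => D1 k.1 ^ 2 * (‖c2 k.2 u.2‖ ^ 2 * w u) := by
            apply Summable.mul_left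
            exact Summable.of_nonneg_of_le (fun u => mul_nonneg (by positivity) (hw0 u))
              (fun u => by
                have := hw0 u
                gcongr
                exact hA _) (hws.mul_left (A ^ 2))
          exact Summable.tsum_le_tsum e4 (Summable.of_nonneg_of_le
            (fun u => mul_nonneg (by positivity) (hw0 u)) e4 e5) e5
        calc A1 k.1 * B2 k.2 * √(∑' u : G × H, ‖φ1 k.1 u.1 * c2 k.2 u.2‖ ^ 2 * w u)
            ≤ A1 k.1 * B2 k.2 * (D1 k.1 * √(∑' u, ‖c2 k.2 u‖ ^ 2 * w2 u)) :=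
              mul_le_mul_of_nonneg_left e2 (mul_nonneg (hA10 _) (hB20 _))
          _ = _ := by ring
      calc _ ≤ ∑ k : ι1 × κ2, (A1 k.1 * D1 k.1) * (B2 k.2 * √(∑' u, ‖c2 k.2 u‖ ^ 2 * w2 u)) :=
            Finset.sum_le_sum fun k _ => e1 k
        _ = C1 * ∑ k, B2 k * √(∑' u, ‖c2 k u‖ ^ 2 * w2 u) := by
            rw [Fintype.sum_prod_type, hC1, Finset.sum_mul_sum]
        _ ≤ C1 * ε2 := mul_le_mul_of_nonneg_left hB2 hC10
        _ ≤ (C1 + 1) * (ε / (2 * (C1 + 1))) := by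
            apply mul_le_mul (by linarith) hε2C hε20.le (by linarith)
        _ = ε / 2 := by field_simp
    linarith

end Prod

end Pool.Agent.Helper48.CE
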