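import Pool.Agent.Helper48.CE.Glue

/-!
Extensions of Haagerup groups by groups with the complete metric approximation property.
-/

open scoped ENNReal ComplexConjugate
open Filter Topology

namespace Pool.Agent.Helper48.CE

open Pool.Agent.Helper84.GVN

/-- The Haagerup property: for every finite set there are unit vectors in unitary representations
on `ℓ²`, with matrix coefficient vanishing at infinity, that are almost invariant. -/
def IsHaagerup (N : Type) [Group N] : Prop :=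
  ∀ (F : Finset N) (ε : ℝ), 0 < ε → ∃ (π : N →* (L2 ℕ ≃ₗᵢ[ℂ] L2 ℕ)) (ξ : L2 ℕ), ‖ξ‖ = 1 ∧
    Tendsto (fun n => inner ℂ ξ (π n ξ)) cofinite (𝓝 0) ∧ ∀ n ∈ F, ‖π n ξ - ξ‖ ≤ ε

/-- Property A (exactness). -/
def PropA (Q : Type) [Group Q] : Prop :=
  ∀ (S : Finset Q) (ε : ℝ), 0 < ε → ∃ (B : Finset Q) (ξ : Q → L2 Q), (∀ q, ‖ξ q‖ = 1) ∧
    (∀ q z, ξ q z ≠ 0 → q * z⁻¹ ∈ B) ∧ ∀ q q', q * q'⁻¹ ∈ S → ‖ξ q - ξ q'‖ ≤ ε

/-- Weak amenability with Cowling-Haagerup constant one: finitely supported Herz-Schur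
multipliers of norm close to one that are close to one on a given finite set. -/
def CMAP (Q : Type) [Group Q] : Prop :=
  ∀ (F : Finset Q) (ε : ℝ), 0 < ε → ∃ (m : Q → ℂ) (p r : Q → L2 ℕ), m.support.Finite ∧
    (∀ q ∈ F, ‖1 - m q‖ ≤ ε) ∧ (∀ q, ‖p q‖ ≤ 1 + ε) ∧ (∀ q, ‖r q‖ ≤ 1 + ε) ∧
    ∀ q q', inner ℂ (p q) (r q') = m (q * q'⁻¹)

section Tail

variable {G : Type*}

theorem tail {w : G → ℝ} (hw0 : ∀ g, 0 ≤ w g) (hw : Summable w) (C : ℝ) (hC : 0 ≤ C) (δ : ℝ)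
    (hδ : 0 < δ) : ∃ (U : Finset G) (η : ℝ), 0 < η ∧ ∀ c : G → ℂ, (∀ u, ‖c u‖ ≤ C) →
      (∀ u ∈ U, ‖c u‖ ≤ η) → √(∑' u, ‖c u‖ ^ 2 * w u) ≤ δ := by
  classical
  set W := ∑' u, w u with hW
  have hW0 : 0 ≤ W := tsum_nonneg hw0
  set δ' : ℝ := δ ^ 2 / (2 * (C ^ 2 + 1)) with hδ'
  have hδ'0 : 0 < δ' := by positivity
  obtain ⟨U, hU⟩ := (Metric.tendsto_nhds.1 hw.hasSum δ' hδ'0).exists
  set η : ℝ := √(δ ^ 2 / (2 * (W + 1))) with hη
  have hη0 : 0 < η := Real.sqrt_pos.2 (by positivity)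
  refine ⟨U, η, hη0, fun c hc hcU => ?_⟩
  apply Real.sqrt_le_iff.2 ⟨hδ.le, ?_⟩
  have hη2 : η ^ 2 = δ ^ 2 / (2 * (W + 1)) := Real.sq_sqrt (by positivity)
  have h1 : ∀ u, ‖c u‖ ^ 2 * w u ≤ η ^ 2 * w u + C ^ 2 * (w u - if u ∈ U then w u else 0) := by
    intro u
    have h0 := hw0 u
    by_cases hu : u ∈ U
    · rw [if_pos hu, sub_self, mul_zero, add_zero]
      gcongr
      exact hcU u hu
    · rw [if_neg hu, sub_zero]
      have : ‖c u‖ ^ 2 * w u ≤ C ^ 2 * w u := by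
        gcongr
        exact hc u
      have h3 : 0 ≤ η ^ 2 * w u := by positivity
      linarith
  have hs1 : HasSum (fun u => if u ∈ U then w u else 0) (∑ u ∈ U, w u) := by
    have h2 : HasSum (fun u => if u ∈ U then w u else 0) (∑ u ∈ U, if u ∈ U then w u else 0) :=
      hasSum_sum_of_ne_finset_zero (fun n hn => by simp [hn])
    rwa [Finset.sum_congr rfl (fun n hn => if_pos hn)] at h2
  have hs2 : HasSum (fun u => η ^ 2 * w u + C ^ 2 * (w u - if u ∈ U then w u else 0))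
      (η ^ 2 * W + C ^ 2 * (W - ∑ u ∈ U, w u)) :=
    (hw.hasSum.mul_left _).add ((hw.hasSum.sub hs1).mul_left _)
  have hs3 : Summable fun u => ‖c u‖ ^ 2 * w u :=
    Summable.of_nonneg_of_le (fun u => mul_nonneg (by positivity) (hw0 u)) h1 hs2.summable
  have h4 := Summable.tsum_le_tsum h1 hs3 hs2.summable
  rw [hs2.tsum_eq] at h4
  refine h4.trans ?_
  have h5 : W - ∑ u ∈ U, w u ≤ δ' := by
    rw [Real.dist_eq] at hU
    have := abs_lt.1 hU
    linarith [this.1]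
  have h6 : C ^ 2 * (W - ∑ u ∈ U, w u) ≤ δ ^ 2 / 2 := by
    calc C ^ 2 * (W - ∑ u ∈ U, w u) ≤ C ^ 2 * δ' := by gcongr
      _ ≤ (C ^ 2 + 1) * δ' := by nlinarith
      _ = δ ^ 2 / 2 := by rw [hδ']; field_simp
  have h7 : η ^ 2 * W ≤ δ ^ 2 / 2 := by
    calc η ^ 2 * W ≤ η ^ 2 * (W + 1) := by gcongr; linarith
      _ = δ ^ 2 / 2 := by rw [hη2]; field_simp
  linarith

end Tail

section Tensor

variable {A J : Type*}

theorem norm_dmul_one {P : A → L2 J} (hP) (h1 : ∀ g, ‖P g‖ = 1) (f : L2 A) :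
    ‖dmul P hP f‖ = ‖f‖ := by
  apply (sq_eq_sq₀ (norm_nonneg _) (norm_nonneg _)).1
  rw [norm_dmul_sq, norm_sq_eq]
  simp [h1]

theorem dmul_sub_right {P : A → L2 J} (hP) (f f' : L2 A) :
    dmul P hP f - dmul P hP f' = dmul P hP (f - f') := by
  apply l2_ext
  intro p
  change f p.1 * P p.1 p.2 - f' p.1 * P p.1 p.2 = (f - f') p.1 * P p.1 p.2
  rw [lp.coeFn_sub, Pi.sub_apply, sub_mul]

theorem hasSum_inner_dmul {P P' : A → L2 J} (hP) (hP') (f f' : L2 A) :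
    HasSum (fun g => conj (f g) * f' g * inner ℂ (P g) (P' g))
      (inner ℂ (dmul P hP f) (dmul P' hP' f')) := by
  have h := hasSum_inner_rows (dmul P hP f) (dmul P' hP' f')
  convert! h using 2 with g
  rw [row_dmul, row_dmul, inner_smul_left, inner_smul_right]
  ring

theorem inner_dmul_const (y y' : L2 J) (hP) (hP') (f f' : L2 A) :
    inner ℂ (dmul (fun _ : A => y) hP f) (dmul (fun _ : A => y') hP' f') =
      inner ℂ f f' * inner ℂ y y' := by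
  have h1 := hasSum_inner_dmul hP hP' f f'
  have h2 : HasSum (fun g => inner ℂ (f g) (f' g)) (inner ℂ f f') := lp.hasSum_inner f f'
  refine h1.unique ?_
  convert! h2.mul_right (inner ℂ y y') using 2 with g
  rw [RCLike.inner_apply]
  ring

end Tensor

end Pool.Agent.Helper48.CE
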