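import Pool.Agent.Helper48.CE.Cls

/-!
The kernel of an extension.
-/

open scoped ENNReal ComplexConjugate
open Filter Topology

namespace Pool.Agent.Helper48.CE

open Pool.Agent.Helper84.GVN

section Ext

variable {G : Type} [Group G] (N : Subgroup G)

open Classical in
/-- Extension by zero. -/
noncomputable def ext0 (ψ : N → ℂ) (x : G) : ℂ := if h : x ∈ N then ψ ⟨x, h⟩ else 0

theorem norm_ext0_le {ψ : N → ℂ} {C : ℝ} (hC : ∀ n, ‖ψ n‖ ≤ C) (x : G) : ‖ext0 N ψ x‖ ≤ C := by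
  unfold ext0
  split_ifs with h
  · exact hC _
  · rw [norm_zero]
    exact (norm_nonneg _).trans (hC 1)

theorem ext0_tendsto {ψ : N → ℂ} (h0 : Tendsto ψ cofinite (𝓝 0)) :
    Tendsto (ext0 N ψ) cofinite (𝓝 0) := by
  rw [Metric.tendsto_nhds]
  intro δ hδ
  have h1 := Metric.tendsto_nhds.1 h0 δ hδ
  rw [Filter.eventually_cofinite] at h1 ⊢
  apply (h1.image (Subtype.val : N → G)).subset
  intro x hx
  rw [Set.mem_setOf_eq] at hx
  by_cases h : x ∈ N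
  · refine ⟨⟨x, h⟩, ?_, rfl⟩
    rw [Set.mem_setOf_eq]
    rwa [ext0, dif_pos h] at hx
  · rw [ext0, dif_neg h, dist_self] at hx
    exact absurd hδ hx

/-- Weighted sums of a function extended by zero. -/
theorem tsum_ext0 (ψ : N → ℂ) (w : G → ℝ) :
    ∑' x, ‖ext0 N ψ x‖ ^ 2 * w x = ∑' n : N, ‖ψ n‖ ^ 2 * w n := by
  have h1 : (Function.support fun x => ‖ext0 N ψ x‖ ^ 2 * w x) ⊆
      Set.range (Subtype.val : N → G) := by
    intro x hx
    by_contra hcon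
    apply hx
    have : x ∉ N := fun h => hcon ⟨⟨x, h⟩, rfl⟩
    simp only
    rw [ext0, dif_neg this]
    simp
  have h2 := Subtype.val_injective.tsum_eq (f := fun x => ‖ext0 N ψ x‖ ^ 2 * w x)
    (g := (Subtype.val : N → G)) h1
  rw [← h2]
  congr 1
  funext n
  rw [ext0, dif_pos n.2]

variable [hN : N.Normal]

/-- A section of the quotient map. -/
noncomputable def sg (q : G ⧸ N) : G := Quotient.out q

theorem mk_sg (q : G ⧸ N) : ((sg N q : G) : G ⧸ N) = q := QuotientGroup.out_eq' q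

theorem nz_mem (g : G) (z : G ⧸ N) : (sg N ((g : G ⧸ N) * z⁻¹))⁻¹ * g * (sg N z)⁻¹ ∈ N := by
  rw [← QuotientGroup.eq_one_iff]
  simp only [QuotientGroup.mk_mul, QuotientGroup.mk_inv, mk_sg]
  group

/-- The coordinate of `g` in `N` seen from `z`. -/
noncomputable def nz (g : G) (z : G ⧸ N) : N :=
  ⟨(sg N ((g : G ⧸ N) * z⁻¹))⁻¹ * g * (sg N z)⁻¹, nz_mem N g z⟩

theorem tw_mem (u : G) (β : G ⧸ N) : (sg N β)⁻¹ * u * sg N ((u : G ⧸ N)⁻¹ * β) ∈ N := by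
  rw [← QuotientGroup.eq_one_iff]
  simp only [QuotientGroup.mk_mul, QuotientGroup.mk_inv, mk_sg]
  group

theorem nz_mul_inv (g h : G) (β : G ⧸ N) :
    nz N g (β⁻¹ * (g : G ⧸ N)) * (nz N h (β⁻¹ * (g : G ⧸ N)))⁻¹ =
      ⟨(sg N β)⁻¹ * (g * h⁻¹) * sg N (((g * h⁻¹ : G) : G ⧸ N)⁻¹ * β), tw_mem N (g * h⁻¹) β⟩ := by
  apply Subtype.ext
  rw [Subgroup.coe_mul, Subgroup.coe_inv, nz, nz]
  simp only
  have e2 : (g : G ⧸ N) * (β⁻¹ * (g : G ⧸ N))⁻¹ = β := by group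
  have e3 : (h : G ⧸ N) * (β⁻¹ * (g : G ⧸ N))⁻¹ = ((g * h⁻¹ : G) : G ⧸ N)⁻¹ * β := by
    simp only [QuotientGroup.mk_mul, QuotientGroup.mk_inv]
    group
  rw [e2, e3]
  group

variable (V : G ⧸ N → L2 (G ⧸ N))

/-- The combined vectors. -/
noncomputable def yv {J : Type*} (PN : N → L2 J) (hη : ∃ C, ∀ n, ‖PN n‖ ≤ C) (g : G) :
    L2 ((G ⧸ N) × J) :=
  dmul (fun z => PN (nz N g z)) (hη.imp fun _ h z => h _) (V (g : G ⧸ N))

/-- The coefficients given by property A. -/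
noncomputable def aco (q β : G ⧸ N) (g : G) : ℂ :=
  conj (V (g : G ⧸ N) (β⁻¹ * (g : G ⧸ N))) * V (q⁻¹ * (g : G ⧸ N)) (β⁻¹ * (g : G ⧸ N))

theorem inner_yv {J : Type*} (PN RN : N → L2 J) (hP) (hR) (B : Finset (G ⧸ N))
    (hB : ∀ q z, V q z ≠ 0 → q * z⁻¹ ∈ B) (g h : G) :
    inner ℂ (yv N V PN hP g) (yv N V RN hR h) =
      ∑ β ∈ B, aco N V ((g * h⁻¹ : G) : G ⧸ N) β g *
        inner ℂ (PN (nz N g (β⁻¹ * (g : G ⧸ N)))) (RN (nz N h (β⁻¹ * (g : G ⧸ N)))) := by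
  classical
  have h1 : HasSum (fun z => conj (V (g : G ⧸ N) z) * V (h : G ⧸ N) z *
      inner ℂ (PN (nz N g z)) (RN (nz N h z))) (inner ℂ (yv N V PN hP g) (yv N V RN hR h)) :=
    hasSum_inner_dmul (hP.imp fun _ h z => h _) (hR.imp fun _ h z => h _)
      (V (g : G ⧸ N)) (V (h : G ⧸ N))
  let e : (G ⧸ N) ≃ (G ⧸ N) :=
    { toFun := fun β => β⁻¹ * (g : G ⧸ N)
      invFun := fun z => (g : G ⧸ N) * z⁻¹
      left_inv := fun β => by group
      right_inv := fun z => by group }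
  have h2 := (Equiv.hasSum_iff e).2 h1
  have h3 : HasSum (fun β => aco N V ((g * h⁻¹ : G) : G ⧸ N) β g *
        inner ℂ (PN (nz N g (β⁻¹ * (g : G ⧸ N)))) (RN (nz N h (β⁻¹ * (g : G ⧸ N)))))
      (∑ β ∈ B, aco N V ((g * h⁻¹ : G) : G ⧸ N) β g *
        inner ℂ (PN (nz N g (β⁻¹ * (g : G ⧸ N)))) (RN (nz N h (β⁻¹ * (g : G ⧸ N))))) := by
    apply hasSum_sum_of_ne_finset_zero
    intro β hβ
    have h4 : V (g : G ⧸ N) (β⁻¹ * (g : G ⧸ N)) = 0 := by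
      by_contra hne
      have h5 := hB _ _ hne
      apply hβ
      convert! h5 using 1
      group
    rw [aco, h4]
    simp
  refine h2.unique ?_
  convert! h3 using 2 with β
  simp only [Function.comp_apply, e, Equiv.coe_fn_mk]
  have e1 : ((g * h⁻¹ : G) : G ⧸ N)⁻¹ * (g : G ⧸ N) = (h : G ⧸ N) := by
    simp only [QuotientGroup.mk_mul, QuotientGroup.mk_inv]
    group
  rw [aco, e1]

theorem sum_aco (B : Finset (G ⧸ N)) (hB : ∀ q z, V q z ≠ 0 → q * z⁻¹ ∈ B) (q : G ⧸ N) (g : G) :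
    ∑ β ∈ B, aco N V q β g = inner ℂ (V (g : G ⧸ N)) (V (q⁻¹ * (g : G ⧸ N))) := by
  classical
  have h1 : HasSum (fun z => inner ℂ (V (g : G ⧸ N) z) (V (q⁻¹ * (g : G ⧸ N)) z))
      (inner ℂ (V (g : G ⧸ N)) (V (q⁻¹ * (g : G ⧸ N)))) := lp.hasSum_inner _ _
  let e : (G ⧸ N) ≃ (G ⧸ N) :=
    { toFun := fun β => β⁻¹ * (g : G ⧸ N)
      invFun := fun z => (g : G ⧸ N) * z⁻¹
      left_inv := fun β => by group
      right_inv := fun z => by group }
  have h2 := (Equiv.hasSum_iff e).2 h1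
  have h3 : HasSum (fun β => aco N V q β g) (∑ β ∈ B, aco N V q β g) := by
    apply hasSum_sum_of_ne_finset_zero
    intro β hβ
    have h4 : V (g : G ⧸ N) (β⁻¹ * (g : G ⧸ N)) = 0 := by
      by_contra hne
      have h5 := hB _ _ hne
      apply hβ
      convert! h5 using 1
      group
    rw [aco, h4]
    simp
  refine h3.unique ?_
  convert! h2 using 2 with β
  simp only [Function.comp_apply, e, Equiv.coe_fn_mk]
  rw [aco, RCLike.inner_apply, mul_comm]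

theorem norm_aco_le (hV : ∀ q, ‖V q‖ = 1) (q β : G ⧸ N) (g : G) : ‖aco N V q β g‖ ≤ 1 := by
  rw [aco, norm_mul, RCLike.norm_conj]
  have h1 := norm_apply_le (V (g : G ⧸ N)) (β⁻¹ * (g : G ⧸ N))
  have h2 := norm_apply_le (V (q⁻¹ * (g : G ⧸ N))) (β⁻¹ * (g : G ⧸ N))
  rw [hV] at h1 h2
  exact mul_le_one₀ h1 (norm_nonneg _) h2

theorem norm_yv_le {J : Type*} {PN : N → L2 J} {C : ℝ} (hC : ∀ n, ‖PN n‖ ≤ C) (hP)
    (hV : ∀ q, ‖V q‖ = 1) (g : G) : ‖yv N V PN hP g‖ ≤ C := by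
  have hC0 : 0 ≤ C := (norm_nonneg _).trans (hC 1)
  unfold yv
  refine (norm_dmul_le (fun z => hC _) hC0 _ _).trans ?_
  rw [hV, mul_one]

theorem norm_yv_sub_le {J : Type*} {PN RN : N → L2 J} {ε : ℝ} (hε : ∀ n, ‖PN n - RN n‖ ≤ ε)
    (hP) (hR) (hV : ∀ q, ‖V q‖ = 1) (g : G) : ‖yv N V PN hP g - yv N V RN hR g‖ ≤ ε := by
  have hε0 : 0 ≤ ε := (norm_nonneg _).trans (hε 1)
  unfold yv
  rw [dmul_sub _ _ _ _ ⟨ε, fun z => hε _⟩]
  refine (norm_dmul_le (fun z => hε _) hε0 _ _).trans ?_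
  rw [hV, mul_one]

end Ext

theorem norm_one_sub_inner_le {H : Type*} [NormedAddCommGroup H] [InnerProductSpace ℂ H]
    {x y : H} (hx : ‖x‖ = 1) : ‖1 - inner ℂ x y‖ ≤ ‖x - y‖ := by
  have h1 : (1 : ℂ) - inner ℂ x y = inner ℂ x (x - y) := by
    rw [inner_sub_right, inner_self_eq_norm_sq_to_K, hx]
    simp
  rw [h1]
  refine (norm_inner_le_norm _ _).trans ?_
  rw [hx, one_mul]

theorem sum_ite_supp {Q : Type*} [DecidableEq Q] (m : Q → ℂ) (hm : m.support.Finite) (q0 : Q)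
    (f : Q → ℂ) : ∑ q : hm.toFinset, (if q0 = q then m q * f q else 0) = m q0 * f q0 := by
  rw [Finset.sum_coe_sort hm.toFinset (fun q => if q0 = q then m q * f q else 0),
    Finset.sum_ite_eq]
  split_ifs with h
  · rfl
  · have : m q0 = 0 := by
      by_contra hne
      exact h (by simpa using hne)
    rw [this, zero_mul]

end Pool.Agent.Helper48.CE
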