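import Pool.Agent.Helper48.CE.Stmt

/-!
Coarse embeddability and group von Neumann algebras: the main theorem.
-/

open scoped ENNReal ComplexConjugate
open Filter Topology

namespace Pool.Agent.Helper48.CE.Stmt

open Pool.Agent.Helper84.GVN

theorem ip_eq {I : Type} (f g : L2 I) : ip (I := I) f g = inner ℂ f g := by
  rw [lp.inner_eq_tsum]
  unfold ip
  apply tsum_congr
  intro i
  rw [RCLike.inner_apply, mul_comm]
  rfl

theorem wh_iff {G : Type} [Group G] (h : WH G) : CE.WH G := by
  intro F ε hε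
  obtain ⟨m, p, r, h0, h1, h2, h3, h4⟩ := h F ε hε
  exact ⟨m, p, r, h0, h1, h2, h3, fun q q' => (ip_eq (p q) (r q')).symm.trans (h4 q q')⟩

theorem cmap_iff {G : Type} [Group G] (h : CMAP G) : CE.CMAP G := by
  intro F ε hε
  obtain ⟨m, p, r, h0, h1, h2, h3, h4⟩ := h F ε hε
  exact ⟨m, p, r, h0, h1, h2, h3, fun q q' => (ip_eq (p q) (r q')).symm.trans (h4 q q')⟩

theorem propA_iff {G : Type} [Group G] (h : PropA G) : CE.PropA G := h

theorem star_of_cls {G : Type} [Group G] (h : Cls G) : Star G := by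
  induction h with
  | wh G h => exact star_of_wh (wh_iff h)
  | sub G H f hf h ih => exact star_of_injective ih f hf
  | prod G H hG hH ih1 ih2 => exact star_prod ih1 ih2
  | union G N hN h ih => exact star_local fun F => ⟨N F, hN F, ih F⟩
  | ext G N h hA hC ih => exact star_ext N ih (propA_iff hA) (cmap_iff hC)

theorem wh_of_haagerup {G : Type} [Group G] (h : IsHaagerup G) : WH G := by
  intro F ε hε
  obtain ⟨m, p, h0, h1, h2, h3⟩ := h F ε hε
  refine ⟨m, p, p, h0, h1, fun q => ?_, fun q => ?_, h3⟩ <;>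
  · rw [h2]
    linarith

theorem wh_of_cmap {G : Type} [Group G] (h : CMAP G) : WH G := by
  intro F ε hε
  obtain ⟨m, p, r, h0, h1, h2, h3, h4⟩ := h F ε hε
  refine ⟨m, p, r, ?_, h1, h2, h3, h4⟩
  apply tendsto_nhds_of_eventually_eq
  rw [Filter.eventually_cofinite]
  exact h0

theorem groupVN_eq (Γ : Type) [Group Γ] : GroupVN Γ = RR Γ := by
  ext T
  constructor
  · intro h k f
    apply l2_ext
    intro x
    have h1 := h k f (rhoU k f) (fun y => rhoU_apply k f y) x
    exact h1.trans (rhoU_apply k _ x).symm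
  · intro h g f f' hf x
    have h1 : f' = rhoU g f := by
      apply l2_ext
      intro y
      rw [rhoU_apply]
      exact hf y
    have h2 := h g f
    have h3 : app T f' = rhoU g (app T f) := by
      rw [h1]
      exact h2
    rw [h3]
    exact rhoU_apply g _ x

theorem main {Γ Λ : Type} [Group Γ] [Countable Γ] [Group Λ] [Countable Λ] (hΓ : Cls Γ)
    (hΛ : IsoGroupVN Γ Λ ∨ MapsMixing Λ Γ) : CoarselyEmbeds Λ := by
  rcases hΛ with hΛ | hΛ
  · obtain ⟨Φ, hΦ, hΦ'⟩ := hΛ
    simp only [groupVN_eq] at hΦ hΦ'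
    have h1 : IsoR (G := Γ) (H := Λ) Φ :=
      { bij := hΦ
        add := fun S hS T hT => (hΦ' S hS T hT).1
        mul := fun S hS T hT => (hΦ' S hS T hT).2.1
        star := fun S hS => (hΦ' S hS S hS).2.2.1
        smul := fun S hS => (hΦ' S hS S hS).2.2.2 }
    exact coarse_of_iso (star_of_cls hΓ) h1
  · obtain ⟨v, hv, h1, hm, hs, h0⟩ := hΛ
    simp only [groupVN_eq] at hv
    refine coarse_of_hom (star_of_cls hΓ) v hv h1 hm hs fun x y => ?_
    exact (h0 x y).congr fun t => ip_eq x (app (v t) y)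

end Pool.Agent.Helper48.CE.Stmt
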