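import Pool.Agent.Helper48.CE.Scale

/-!
Gluing the scales.
-/

open scoped ENNReal ComplexConjugate
open Filter Topology

namespace Pool.Agent.Helper48.CE

open Pool.Agent.Helper84.GVN

section Real

variable {I : Type*}

/-- Real and imaginary parts of the coordinates. -/
noncomputable def parts (x : L2 I) (p : I × Bool) : ℝ := if p.2 then (x p.1).re else (x p.1).im

theorem hasSum_parts (x : L2 I) : HasSum (fun p => parts x p ^ 2) (‖x‖ ^ 2) := by
  have h1 : ∀ i, HasSum (fun b => parts x (i, b) ^ 2) (‖x i‖ ^ 2) := by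
    intro i
    have h2 := hasSum_fintype (fun b => parts x (i, b) ^ 2)
    have h3 : ∑ b, parts x (i, b) ^ 2 = ‖x i‖ ^ 2 := by
      rw [Fintype.sum_bool, ← Complex.normSq_eq_norm_sq, Complex.normSq_apply]
      simp only [parts, if_true, Bool.false_eq_true, if_false]
      ring
    rw [h3] at h2
    exact h2
  have h4 : Summable fun p => parts x p ^ 2 := by
    refine (summable_prod_of_nonneg (fun p => by positivity)).2 ⟨fun i => (h1 i).summable, ?_⟩
    simp only [(h1 _).tsum_eq]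
    exact summable_sq x
  have h5 := h4.hasSum
  have h6 := h5.prod_fiberwise h1
  rw [← h6.unique (hasSum_sq x)]
  exact h5

theorem parts_sub (x y : L2 I) (p : I × Bool) : parts (x - y) p = parts x p - parts y p := by
  unfold parts
  rw [lp.coeFn_sub, Pi.sub_apply]
  split_ifs
  · rw [Complex.sub_re]
  · rw [Complex.sub_im]

/-- The complex Hilbert space `L2 I`, with `I` countable, embeds isometrically in the real
sequence space. -/
theorem exists_real [Countable I] :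
    ∃ Φ : L2 I → lp (fun _ : ℕ => ℝ) 2, ∀ x y, ‖Φ x - Φ y‖ = ‖x - y‖ := by
  obtain ⟨e, he⟩ := exists_injective_nat (I × Bool)
  have hsq : ∀ x : L2 I, (fun n => (Function.extend e (parts x) 0 n) ^ 2) =
      Function.extend e (fun p => parts x p ^ 2) 0 := by
    intro x
    funext n
    by_cases hn : ∃ p, e p = n
    · obtain ⟨p, rfl⟩ := hn
      rw [he.extend_apply, he.extend_apply]
    · rw [Function.extend_apply' _ _ _ hn, Function.extend_apply' _ _ _ hn]
      simp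
  have hsum : ∀ x : L2 I, HasSum (fun n => (Function.extend e (parts x) 0 n) ^ 2) (‖x‖ ^ 2) := by
    intro x
    rw [hsq]
    exact (hasSum_extend_zero he).2 (hasSum_parts x)
  have hmem : ∀ x : L2 I, Memℓp (Function.extend e (parts x) 0) 2 := by
    intro x
    apply memℓp_gen
    have := (hsum x).summable
    simpa using this
  refine ⟨fun x => ⟨_, hmem x⟩, fun x y => ?_⟩
  apply (sq_eq_sq₀ (norm_nonneg _) (norm_nonneg _)).1
  have h1 := lp.hasSum_norm (p := 2) (by norm_num)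
    ((⟨_, hmem x⟩ : lp (fun _ : ℕ => ℝ) 2) - ⟨_, hmem y⟩)
  have h2 : HasSum (fun n => ‖(Function.extend e (parts (x - y)) 0 n)‖ ^ 2) (‖x - y‖ ^ 2) := by
    simpa using hsum (x - y)
  have h3 : ∀ n, ((⟨_, hmem x⟩ : lp (fun _ : ℕ => ℝ) 2) - ⟨_, hmem y⟩ :
      lp (fun _ : ℕ => ℝ) 2) n = Function.extend e (parts (x - y)) 0 n := by
    intro n
    change Function.extend e (parts x) 0 n - Function.extend e (parts y) 0 n = _
    by_cases hn : ∃ p, e p = n
    · obtain ⟨p, rfl⟩ := hn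
      rw [he.extend_apply, he.extend_apply, he.extend_apply, parts_sub]
    · rw [Function.extend_apply' _ _ _ hn, Function.extend_apply' _ _ _ hn,
        Function.extend_apply' _ _ _ hn]
      simp
  simp only [h3] at h1
  have h4 : HasSum (fun n => ‖(Function.extend e (parts (x - y)) 0 n)‖ ^ 2)
      (‖(⟨_, hmem x⟩ : lp (fun _ : ℕ => ℝ) 2) - ⟨_, hmem y⟩‖ ^ 2) := by
    simpa using h1
  exact h4.unique h2

end Real

/-- The Hilbert sum of a sequence of maps. -/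
theorem exists_sum {Λ : Type*} {I : ℕ → Type*} (Z : ∀ n, Λ → L2 (I n))
    (hZ : ∀ s t, Summable fun n => ‖Z n s - Z n t‖ ^ 2) (o : Λ) :
    ∃ F : Λ → L2 (Σ n, I n), ∀ s t, ‖F s - F t‖ ^ 2 = ∑' n, ‖Z n s - Z n t‖ ^ 2 := by
  have hmem : ∀ t, Summable fun p : (Σ n, I n) => ‖(Z p.1 t - Z p.1 o) p.2‖ ^ 2 := by
    intro t
    refine (summable_sigma_of_nonneg (fun p => by positivity)).2 ⟨fun n => ?_, ?_⟩
    · exact summable_sq (Z n t - Z n o)
    · convert! hZ t o using 2 with n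
      exact (norm_sq_eq (Z n t - Z n o)).symm
  refine ⟨fun t => ⟨fun p => (Z p.1 t - Z p.1 o) p.2, memL2 (hmem t)⟩, fun s t => ?_⟩
  rw [norm_sq_eq]
  have h1 : ∀ p : (Σ n, I n), ((⟨fun p => (Z p.1 s - Z p.1 o) p.2, memL2 (hmem s)⟩ : L2 (Σ n, I n)) -
      ⟨fun p => (Z p.1 t - Z p.1 o) p.2, memL2 (hmem t)⟩ : L2 (Σ n, I n)) p =
      (Z p.1 s - Z p.1 t) p.2 := by
    intro p
    change (Z p.1 s - Z p.1 o) p.2 - (Z p.1 t - Z p.1 o) p.2 = _
    simp only [lp.coeFn_sub, Pi.sub_apply]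
    ring
  simp only [h1]
  have h2 : Summable fun p : (Σ n, I n) => ‖(Z p.1 s - Z p.1 t) p.2‖ ^ 2 := by
    refine (summable_sigma_of_nonneg (fun p => by positivity)).2 ⟨fun n => ?_, ?_⟩
    · exact summable_sq (Z n s - Z n t)
    · convert! hZ s t using 2 with n
      exact (norm_sq_eq (Z n s - Z n t)).symm
  rw [h2.tsum_sigma]
  congr 1
  funext n
  rw [norm_sq_eq]

/-- Coarse embedding from the scales. -/
theorem coarse_of_scales {Λ : Type} [Group Λ] [Countable Λ]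
    (h : ∀ (E : Finset Λ) (δ : ℝ), 0 < δ → ∃ (I : Type) (_ : Countable I) (Z : Λ → L2 I),
      (∀ t, ‖Z t‖ ≤ 2) ∧ (∀ s t, s⁻¹ * t ∈ E → ‖Z s - Z t‖ ≤ δ) ∧
      ∃ K : Finset Λ, ∀ s t, s⁻¹ * t ∉ K → 1 ≤ ‖Z s - Z t‖) :
    ∃ F : Λ → lp (fun _ : ℕ => ℝ) 2,
      (∀ K : Finset Λ, ∃ C : ℝ, ∀ x y : Λ, x⁻¹ * y ∈ K → ‖F x - F y‖ ≤ C) ∧
      (∀ R : ℝ, ∃ K : Finset Λ, ∀ x y : Λ, ‖F x - F y‖ ≤ R → x⁻¹ * y ∈ K) := by
  classical
  obtain ⟨f, hf⟩ := exists_injective_nat Λ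
  have hfin : ∀ n : ℕ, {t : Λ | f t ≤ n}.Finite := fun n =>
    (Set.finite_Iic n).preimage hf.injOn
  choose I hI Z hZ2 hZE K hK using fun n : ℕ => h (hfin n).toFinset ((1 / 2 : ℝ) ^ n) (by positivity)
  have hcl : ∀ n s t, f (s⁻¹ * t) ≤ n → ‖Z n s - Z n t‖ ^ 2 ≤ (1 / 4 : ℝ) ^ n := by
    intro n s t hn
    have h1 := hZE n s t (by rw [Set.Finite.mem_toFinset]; exact hn)
    calc ‖Z n s - Z n t‖ ^ 2 ≤ ((1 / 2 : ℝ) ^ n) ^ 2 := by gcongr
      _ = (1 / 4 : ℝ) ^ n := by rw [← pow_mul, mul_comm, pow_mul]; norm_num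
  have hbd : ∀ n s t, ‖Z n s - Z n t‖ ^ 2 ≤ 16 := by
    intro n s t
    have h1 := (norm_sub_le (Z n s) (Z n t)).trans (add_le_add (hZ2 n s) (hZ2 n t))
    nlinarith [norm_nonneg (Z n s - Z n t)]
  have hle : ∀ N s t, f (s⁻¹ * t) ≤ N → ∀ n, ‖Z n s - Z n t‖ ^ 2 ≤
      (1 / 4 : ℝ) ^ n + (if n ∈ Finset.range N then 16 else 0) := by
    intro N s t hN n
    by_cases hn : n ∈ Finset.range N
    · rw [if_pos hn]
      have h1 := hbd n s t
      have h2 : (0 : ℝ) ≤ (1 / 4) ^ n := by positivity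
      linarith
    · rw [if_neg hn, add_zero]
      exact hcl n s t (hN.trans (by simpa using hn))
  have hgeo : HasSum (fun n : ℕ => (1 / 4 : ℝ) ^ n) (4 / 3) := by
    have := hasSum_geometric_of_lt_one (r := (1 / 4 : ℝ)) (by norm_num) (by norm_num)
    convert this using 1
    norm_num
  have hind : ∀ N : ℕ, HasSum (fun n => if n ∈ Finset.range N then (16 : ℝ) else 0) (16 * N) := by
    intro N
    have h1 : HasSum (fun n => if n ∈ Finset.range N then (16 : ℝ) else 0)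
        (∑ n ∈ Finset.range N, if n ∈ Finset.range N then (16 : ℝ) else 0) :=
      hasSum_sum_of_ne_finset_zero (fun n hn => by simp [hn])
    have h2 : ∑ n ∈ Finset.range N, (if n ∈ Finset.range N then (16 : ℝ) else 0) = 16 * N := by
      rw [Finset.sum_congr rfl (fun n hn => if_pos hn)]
      simp [mul_comm]
    rw [h2] at h1
    exact h1
  have hsum : ∀ s t, Summable fun n => ‖Z n s - Z n t‖ ^ 2 := fun s t =>
    Summable.of_nonneg_of_le (fun n => by positivity) (hle _ s t le_rfl)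
      (hgeo.summable.add (hind _).summable)
  have htsum : ∀ N s t, f (s⁻¹ * t) ≤ N → ∑' n, ‖Z n s - Z n t‖ ^ 2 ≤ 4 / 3 + 16 * N := by
    intro N s t hN
    have h1 := Summable.tsum_le_tsum (hle N s t hN) (hsum s t)
      (hgeo.summable.add (hind _).summable)
    rwa [(hgeo.add (hind N)).tsum_eq] at h1
  obtain ⟨F, hF⟩ := exists_sum Z hsum 1
  obtain ⟨Φ, hΦ⟩ := exists_real (I := Σ n, I n)
  refine ⟨fun t => Φ (F t), ?_, ?_⟩
  · intro K'
    obtain ⟨N, hN⟩ : ∃ N : ℕ, ∀ t ∈ K', f t ≤ N := ⟨K'.sup f, fun t ht => Finset.le_sup ht⟩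
    refine ⟨√(4 / 3 + 16 * N), fun x y hxy => ?_⟩
    rw [hΦ]
    apply Real.le_sqrt_of_sq_le
    rw [hF]
    exact htsum N x y (hN _ hxy)
  · intro R
    obtain ⟨M, hM⟩ := exists_nat_gt (R ^ 2)
    refine ⟨(Finset.range M).biUnion K, fun x y hxy => ?_⟩
    by_contra hcon
    rw [hΦ] at hxy
    have h1 : (M : ℝ) ≤ ‖F x - F y‖ ^ 2 := by
      rw [hF]
      calc (M : ℝ) = ∑ n ∈ Finset.range M, (1 : ℝ) := by simp
        _ ≤ ∑ n ∈ Finset.range M, ‖Z n x - Z n y‖ ^ 2 := by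
            apply Finset.sum_le_sum
            intro n hn
            have h2 := hK n x y (fun h3 => hcon (Finset.mem_biUnion.2 ⟨n, hn, h3⟩))
            nlinarith
        _ ≤ _ := (hsum x y).sum_le_tsum _ (fun n _ => by positivity)
    have h2 : ‖F x - F y‖ ^ 2 ≤ R ^ 2 := by
      have := norm_nonneg (F x - F y)
      nlinarith
    linarith

/-- Groups of unitaries tending weakly to zero in the von Neumann algebra of a group with
property `Star` are coarsely embeddable. -/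
theorem coarse_of_star {G Λ : Type} [Group G] [Countable G] [Group Λ] [Countable Λ] (hG : Star G)
    (v : Λ →* (L2 G ≃ₗᵢ[ℂ] L2 G)) (hv : ∀ t, CommR (v t))
    (hmix : ∀ g, Tendsto (fun t => (v t (dl 1)) g) cofinite (𝓝 0)) :
    ∃ F : Λ → lp (fun _ : ℕ => ℝ) 2,
      (∀ K : Finset Λ, ∃ C : ℝ, ∀ x y : Λ, x⁻¹ * y ∈ K → ‖F x - F y‖ ≤ C) ∧
      (∀ R : ℝ, ∃ K : Finset Λ, ∀ x y : Λ, ‖F x - F y‖ ≤ R → x⁻¹ * y ∈ K) := by
  apply coarse_of_scales
  intro E δ hδ
  obtain ⟨J, hJ, Z, h1, h2, h3⟩ := one_scale hG v hv hmix E δ hδ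
  exact ⟨G × J, inferInstance, Z, h1, h2, h3⟩

end Pool.Agent.Helper48.CE
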