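import Pool.Agent.Helper48.CE.Normal

/-!
Star isomorphisms of the algebras commuting with the right translations.
-/

open scoped ENNReal ComplexConjugate InnerProductSpace
open Filter Topology

namespace Pool.Agent.Helper48.CE

open Pool.Agent.Helper84.GVN

section RR

variable {G : Type*} [Group G]

/-- The operators commuting with the right translations. -/
def RR (G : Type*) [Group G] : Set (L2 G →L[ℂ] L2 G) :=
  {T | ∀ (k : G) f, T (rhoU k f) = rhoU k (T f)}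

/-- The right translation as an operator. -/
noncomputable def rhoC (k : G) : L2 G →L[ℂ] L2 G := (rhoU k).toContinuousLinearEquiv

theorem mem_RR_iff {T : L2 G →L[ℂ] L2 G} : T ∈ RR G ↔ ∀ k, Commute T (rhoC k) := by
  constructor
  · intro h k
    ext f : 1
    exact h k f
  · intro h k f
    exact DFunLike.congr_fun (h k) f

theorem star_rhoC (k : G) : star (rhoC k) = (rhoC k⁻¹ : L2 G →L[ℂ] L2 G) := by
  rw [ContinuousLinearMap.star_eq_adjoint]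
  symm
  rw [ContinuousLinearMap.eq_adjoint_iff]
  intro x y
  have h : y = rhoU k⁻¹ (rhoU k y) := by
    apply l2_ext; intro z; simp
  conv_lhs => rw [h]
  exact LinearIsometryEquiv.inner_map_map (rhoU k⁻¹) x (rhoU k y)

theorem RR_one : (1 : L2 G →L[ℂ] L2 G) ∈ RR G := fun _ _ => rfl

theorem RR_add {S T : L2 G →L[ℂ] L2 G} (hS : S ∈ RR G) (hT : T ∈ RR G) : S + T ∈ RR G := by
  rw [mem_RR_iff] at hS hT ⊢
  exact fun k => (hS k).add_left (hT k)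

theorem RR_mul {S T : L2 G →L[ℂ] L2 G} (hS : S ∈ RR G) (hT : T ∈ RR G) : S * T ∈ RR G := by
  rw [mem_RR_iff] at hS hT ⊢
  exact fun k => (hS k).mul_left (hT k)

theorem RR_smul {T : L2 G →L[ℂ] L2 G} (c : ℂ) (hT : T ∈ RR G) : c • T ∈ RR G := by
  rw [mem_RR_iff] at hT ⊢
  exact fun k => (hT k).smul_left c

theorem RR_sub {S T : L2 G →L[ℂ] L2 G} (hS : S ∈ RR G) (hT : T ∈ RR G) : S - T ∈ RR G := by
  rw [mem_RR_iff] at hS hT ⊢
  exact fun k => (hS k).sub_left (hT k)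

theorem RR_star {T : L2 G →L[ℂ] L2 G} (hT : T ∈ RR G) : star T ∈ RR G := by
  rw [mem_RR_iff] at hT ⊢
  intro k
  have h := (hT k⁻¹).star_star
  rwa [star_rhoC, inv_inv] at h

theorem RR_sqrt {T : L2 G →L[ℂ] L2 G} (hT : T ∈ RR G) (h0 : 0 ≤ T) :
    ∃ R ∈ RR G, star R * R = T := by
  obtain ⟨R, h1, h2⟩ := exists_sqrt h0
  rw [mem_RR_iff] at hT
  exact ⟨R, mem_RR_iff.2 fun k => h2 _ (hT k), h1⟩

theorem RR_inverse {T : L2 G →L[ℂ] L2 G} (hT : T ∈ RR G) : Ring.inverse T ∈ RR G := by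
  rw [mem_RR_iff] at hT ⊢
  intro k
  by_cases hu : IsUnit T
  · obtain ⟨u, rfl⟩ := hu
    rw [Ring.inverse_unit]
    exact (hT k).units_inv_left
  · rw [Ring.inverse_non_unit _ hu]
    exact Commute.zero_left _

theorem RR_sum {ι : Type*} (s : Finset ι) {T : ι → L2 G →L[ℂ] L2 G} (hT : ∀ i ∈ s, T i ∈ RR G) :
    ∑ i ∈ s, T i ∈ RR G := by
  simp only [mem_RR_iff] at hT ⊢
  exact fun k => Commute.sum_left s _ _ fun i hi => hT i hi k

theorem RR_lim {T : ℕ → L2 G →L[ℂ] L2 G} {S : L2 G →L[ℂ] L2 G} (hT : ∀ n, T n ∈ RR G)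
    (hS : ∀ x, Tendsto (fun n => T n x) atTop (𝓝 (S x))) : S ∈ RR G := by
  intro k f
  apply tendsto_nhds_unique (hS (rhoU k f))
  simp only [fun n => hT n k f]
  exact ((rhoU k).continuous.tendsto _).comp (hS f)

/-- Faithfulness of the trace vector. -/
theorem RR_faithful {T : L2 G →L[ℂ] L2 G} (hT : T ∈ RR G) (h0 : 0 ≤ T)
    (h1 : (inner ℂ (T (dl 1)) (dl 1)).re ≤ 0) : T = 0 := by
  have h2 := norm_apply_sq_le h0 (dl 1)
  have h3 : ‖T (dl 1)‖ ^ 2 ≤ 0 := h2.trans (mul_nonpos_of_nonneg_of_nonpos (norm_nonneg _) h1)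
  have h4 : T (dl 1) = 0 := by
    have : ‖T (dl 1)‖ = 0 := by nlinarith [norm_nonneg (T (dl 1))]
    exact norm_eq_zero.1 this
  apply clm_ext
  intro x
  have h5 := hT x⁻¹ (dl 1)
  rw [rhoU_dl, one_mul, inv_inv, h4, map_zero] at h5
  rw [h5]
  rfl

end RR

/-- A star isomorphism of the algebras `RR`. -/
structure IsoR {G H : Type*} [Group G] [Group H] (Φ : (L2 G →L[ℂ] L2 G) → (L2 H →L[ℂ] L2 H)) :
    Prop where
  bij : Set.BijOn Φ (RR G) (RR H)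
  add : ∀ S ∈ RR G, ∀ T ∈ RR G, Φ (S + T) = Φ S + Φ T
  mul : ∀ S ∈ RR G, ∀ T ∈ RR G, Φ (S * T) = Φ S * Φ T
  star : ∀ S ∈ RR G, Φ (star S) = star (Φ S)
  smul : ∀ S ∈ RR G, ∀ c : ℂ, Φ (c • S) = c • Φ S

namespace IsoR

variable {G H : Type*} [Group G] [Group H] {Φ : (L2 G →L[ℂ] L2 G) → (L2 H →L[ℂ] L2 H)}

theorem mem (h : IsoR Φ) {T} (hT : T ∈ RR G) : Φ T ∈ RR H := h.bij.mapsTo hT

theorem one (h : IsoR Φ) : Φ 1 = 1 := by
  obtain ⟨T, hT, hT1⟩ := h.bij.surjOn (RR_one : (1 : L2 H →L[ℂ] L2 H) ∈ RR H)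
  have h1 := h.mul 1 RR_one T hT
  rw [one_mul, hT1, mul_one] at h1
  exact h1.symm

theorem sub (h : IsoR Φ) {S T} (hS : S ∈ RR G) (hT : T ∈ RR G) : Φ (S - T) = Φ S - Φ T := by
  have h1 : S - T = S + (-1 : ℂ) • T := by rw [neg_one_smul, sub_eq_add_neg]
  rw [h1, h.add S hS _ (RR_smul _ hT), h.smul T hT, neg_one_smul, ← sub_eq_add_neg]

theorem zero (h : IsoR Φ) : Φ 0 = 0 := by
  have h1 := h.sub (S := 1) (T := 1) RR_one RR_one
  rwa [sub_self, sub_self] at h1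

theorem nonneg (h : IsoR Φ) {T} (hT : T ∈ RR G) (h0 : 0 ≤ T) : 0 ≤ Φ T := by
  obtain ⟨R, hRR, h1⟩ := RR_sqrt hT h0
  rw [← h1, h.mul _ (RR_star hRR) _ hRR, h.star _ hRR]
  exact star_mul_self_nonneg' _

theorem mono (h : IsoR Φ) {S T} (hS : S ∈ RR G) (hT : T ∈ RR G) (hST : S ≤ T) : Φ S ≤ Φ T := by
  have h1 := h.nonneg (RR_sub hT hS) (sub_nonneg.2 hST)
  rw [h.sub hT hS] at h1
  exact sub_nonneg.1 h1

theorem symm (h : IsoR Φ) : ∃ Ψ : (L2 H →L[ℂ] L2 H) → (L2 G →L[ℂ] L2 G), IsoR Ψ ∧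
    (∀ T ∈ RR G, Ψ (Φ T) = T) ∧ (∀ S ∈ RR H, Φ (Ψ S) = S) := by
  have hne : Nonempty (L2 G →L[ℂ] L2 G) := ⟨0⟩
  set Ψ := Function.invFunOn Φ (RR G) with hΨ
  have hl : ∀ T ∈ RR G, Ψ (Φ T) = T := fun T hT => h.bij.injOn.leftInvOn_invFunOn hT
  have hr : ∀ S ∈ RR H, Φ (Ψ S) = S := fun S hS => h.bij.surjOn.rightInvOn_invFunOn hS
  have hm : ∀ S ∈ RR H, Ψ S ∈ RR G := fun S hS => h.bij.surjOn.mapsTo_invFunOn hS
  refine ⟨Ψ, ⟨?_, ?_, ?_, ?_, ?_⟩, hl, hr⟩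
  · refine ⟨fun S hS => hm S hS, ?_, ?_⟩
    · intro S hS T hT hST
      rw [← hr S hS, ← hr T hT, hST]
    · intro T hT
      exact ⟨Φ T, h.mem hT, hl T hT⟩
  · intro S hS T hT
    apply h.bij.injOn (hm _ (RR_add hS hT)) (RR_add (hm _ hS) (hm _ hT))
    rw [hr _ (RR_add hS hT), h.add _ (hm _ hS) _ (hm _ hT), hr _ hS, hr _ hT]
  · intro S hS T hT
    apply h.bij.injOn (hm _ (RR_mul hS hT)) (RR_mul (hm _ hS) (hm _ hT))
    rw [hr _ (RR_mul hS hT), h.mul _ (hm _ hS) _ (hm _ hT), hr _ hS, hr _ hT]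
  · intro S hS
    apply h.bij.injOn (hm _ (RR_star hS)) (RR_star (hm _ hS))
    rw [hr _ (RR_star hS), h.star _ (hm _ hS), hr _ hS]
  · intro S hS c
    apply h.bij.injOn (hm _ (RR_smul c hS)) (RR_smul c (hm _ hS))
    rw [hr _ (RR_smul c hS), h.smul _ (hm _ hS), hr _ hS]

end IsoR

end Pool.Agent.Helper48.CE
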