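import Pool.Agent.Helper48.CE.Iso

/-!
Star isomorphisms of the algebras commuting with the right translations are normal.
-/

open scoped ENNReal ComplexConjugate InnerProductSpace
open Filter Topology

namespace Pool.Agent.Helper48.CE

open Pool.Agent.Helper84.GVN

/-- The canonical trace. -/
noncomputable def tc {G : Type*} [Group G] (T : L2 G →L[ℂ] L2 G) : ℝ :=
  (inner ℂ (T (dl 1)) (dl 1)).re

section Tc

variable {G : Type*} [Group G]

theorem tc_mono {S T : L2 G →L[ℂ] L2 G} (h : S ≤ T) : tc S ≤ tc T := le_iff_re h _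

theorem tc_sub (S T : L2 G →L[ℂ] L2 G) : tc (S - T) = tc S - tc T := by
  unfold tc
  rw [sub_apply, inner_sub_left, Complex.sub_re]

theorem tc_sum {ι : Type*} (s : Finset ι) (T : ι → L2 G →L[ℂ] L2 G) :
    tc (∑ i ∈ s, T i) = ∑ i ∈ s, tc (T i) := by
  unfold tc
  rw [sum_apply, sum_inner, Complex.re_sum]

theorem tc_zero : tc (0 : L2 G →L[ℂ] L2 G) = 0 := by
  simp [tc]

theorem tc_smul (c : ℝ) (T : L2 G →L[ℂ] L2 G) : tc ((c : ℂ) • T) = c * tc T := by
  unfold tc
  rw [smul_apply, inner_smul_left, Complex.conj_ofReal, Complex.re_ofReal_mul]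

theorem tc_lim {A : ℕ → L2 G →L[ℂ] L2 G} {A' : L2 G →L[ℂ] L2 G}
    (hlim : ∀ x, Tendsto (fun n => A n x) atTop (𝓝 (A' x))) :
    Tendsto (fun n => tc (A n)) atTop (𝓝 (tc A')) :=
  (Complex.continuous_re.tendsto _).comp ((hlim (dl 1)).inner tendsto_const_nhds)

end Tc

theorem no_singular {G H : Type*} [Group G] [Group H]
    {Φ : (L2 G →L[ℂ] L2 G) → (L2 H →L[ℂ] L2 H)} (h : IsoR Φ) {δ : ℝ} (hδ : 0 < δ)
    (b : ℕ → L2 G →L[ℂ] L2 G) (hb : ∀ j, b j ∈ RR G) (h0 : ∀ j, 0 ≤ b j) (h1 : ∀ j, b j ≤ 1)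
    (ht : ∀ j, tc (b j) ≤ (1 / 2) ^ j) (hd : ∀ j, δ ≤ tc (Φ (b j))) : False := by
  classical
  set s : ℕ → ℕ → L2 G →L[ℂ] L2 G := fun J n => ∑ j ∈ Finset.Ico J n, b j with hs
  have hs0 : ∀ J n, 0 ≤ s J n := fun J n => Finset.sum_nonneg fun j _ => h0 j
  have hsn : ∀ J, Monotone (s J) := by
    intro J m n hmn
    apply Finset.sum_le_sum_of_subset_of_nonneg
    · exact Finset.Ico_subset_Ico le_rfl hmn
    · intro j _ _
      exact h0 j
  have hsJ : ∀ n, Antitone fun J => s J n := by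
    intro n J J' hJ
    apply Finset.sum_le_sum_of_subset_of_nonneg
    · exact Finset.Ico_subset_Ico hJ le_rfl
    · intro j _ _
      exact h0 j
  have hsR : ∀ J n, s J n ∈ RR G := fun J n => RR_sum _ fun j _ => hb j
  have hrR : ∀ J n, res (s J n) ∈ RR G := fun J n => RR_inverse (RR_add RR_one (hsR J n))
  choose S hSlim hS0 hSle hSinf using fun J => exists_lim (T := fun n => res (s J n))
    (fun n => res_nonneg (hs0 J n)) (fun m n hmn => res_anti (hs0 J m) (hsn J hmn))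
  have hSR : ∀ J, S J ∈ RR G := fun J => RR_lim (hrR J) (hSlim J)
  have hSmono : Monotone S := by
    intro J J' hJ
    apply hSinf J'
    intro n
    exact (hSle J n).trans (res_anti (hs0 J' n) (hsJ n hJ))
  have hS1 : ∀ J, S J ≤ 1 := fun J => (hSle J 0).trans (res_le_one (hs0 J 0))
  -- the trace of `1 - S J`
  have hgeo : ∀ J n, ∑ j ∈ Finset.Ico J n, (1 / 2 : ℝ) ^ j ≤ 2 * (1 / 2) ^ J := by
    intro J n
    rcases le_total J n with hJn | hJn
    · have h2 := geom_sum_Ico (x := (1 / 2 : ℝ)) (by norm_num) hJn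
      rw [h2]
      have h3 : (0 : ℝ) < (1 / 2) ^ n := by positivity
      rw [div_le_iff_of_neg (by norm_num)]
      linarith
    · rw [Finset.Ico_eq_empty_of_le hJn]
      simp
  have htr : ∀ J, tc (1 - S J) ≤ 2 * (1 / 2) ^ J := by
    intro J
    have h2 : Tendsto (fun n => tc (1 - res (s J n))) atTop (𝓝 (tc (1 - S J))) := by
      apply tc_lim
      intro x
      simp only [sub_apply]
      exact tendsto_const_nhds.sub (hSlim J x)
    apply le_of_tendsto' h2
    intro n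
    refine (tc_mono (one_sub_res_le (hs0 J n))).trans ?_
    rw [hs]
    simp only
    rw [tc_sum]
    exact (Finset.sum_le_sum fun j _ => ht j).trans (hgeo J n)
  -- the images
  have hQR : ∀ J, Φ (S J) ∈ RR H := fun J => h.mem (hSR J)
  have hQ1 : ∀ J, 0 ≤ 1 - Φ (S J) := by
    intro J
    have h2 := h.mono (hSR J) RR_one (hS1 J)
    rw [h.one] at h2
    exact sub_nonneg.2 h2
  obtain ⟨E, hElim, hE0, hEle, _⟩ := exists_lim (T := fun J => 1 - Φ (S J)) hQ1 (by
    intro J J' hJ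
    exact sub_le_sub_left (h.mono (hSR J) (hSR J') (hSmono hJ)) _)
  have hER : E ∈ RR H := RR_lim (fun J => RR_sub RR_one (hQR J)) hElim
  obtain ⟨Ψ, hΨ, hl, hr⟩ := h.symm
  have hzero : Ψ E = 0 := by
    apply RR_faithful (hΨ.mem hER) (hΨ.nonneg hER hE0)
    have h2 : ∀ J : ℕ, (inner ℂ ((Ψ E) (dl 1)) (dl 1)).re ≤ 2 * (1 / 2) ^ J := by
      intro J
      have h3 := hΨ.mono hER (RR_sub RR_one (hQR J)) (hEle J)
      rw [hΨ.sub RR_one (hQR J), hΨ.one, hl _ (hSR J)] at h3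
      exact (tc_mono h3).trans (htr J)
    have h4 : Tendsto (fun J : ℕ => 2 * (1 / 2 : ℝ) ^ J) atTop (𝓝 (2 * 0)) :=
      (tendsto_pow_atTop_nhds_zero_of_lt_one (by norm_num) (by norm_num)).const_mul 2
    rw [mul_zero] at h4
    exact ge_of_tendsto' h4 h2
  have hE : E = 0 := by
    rw [← hr E hER, hzero, h.zero]
  have hlim : Tendsto (fun J => tc (1 - Φ (S J))) atTop (𝓝 0) := by
    have h2 := tc_lim (A := fun J => 1 - Φ (S J)) hElim
    rwa [hE, tc_zero] at h2
  have hlow : ∀ J, δ / 2 ≤ tc (1 - Φ (S J)) := by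
    intro J
    have h2 : ((2⁻¹ : ℝ) : ℂ) • b J ≤ 1 - S J := by
      have h3 := hSle J (J + 1)
      have h4 : s J (J + 1) = b J := by simp [hs]
      rw [h4] at h3
      have h5 := le_one_sub_res (h0 J) (h1 J)
      push_cast
      exact h5.trans (sub_le_sub_left h3 _)
    have h3 := h.mono (RR_smul _ (hb J)) (RR_sub RR_one (hSR J)) h2
    rw [h.smul _ (hb J), h.sub RR_one (hSR J), h.one] at h3
    have h4 := tc_mono h3
    rw [tc_smul] at h4
    have h5 := hd J
    linarith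
  have h2 := ge_of_tendsto' hlim hlow
  linarith

end Pool.Agent.Helper48.CE
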