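import Pool.Agent.Helper48.CE.Glue

/-!
Isomorphisms of group von Neumann algebras are normal.
-/

open scoped ENNReal ComplexConjugate InnerProductSpace
open Filter Topology

namespace Pool.Agent.Helper48.CE

open Pool.Agent.Helper84.GVN

section Order

variable {H : Type*} [NormedAddCommGroup H] [InnerProductSpace ℂ H] [CompleteSpace H]

theorem nonneg_iff {T : H →L[ℂ] H} : 0 ≤ T ↔ T.IsPositive :=
  ContinuousLinearMap.nonneg_iff_isPositive T

theorem le_iff_re {S T : H →L[ℂ] H} (h : S ≤ T) (x : H) :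
    (inner ℂ (S x) x).re ≤ (inner ℂ (T x) x).re := by
  have h1 := (ContinuousLinearMap.le_def S T).1 h
  have h2 := h1.re_inner_nonneg_left x
  rw [sub_apply, inner_sub_left] at h2
  simpa using h2

/-- Square roots. -/
theorem exists_sqrt {T : H →L[ℂ] H} (h0 : 0 ≤ T) :
    ∃ R : H →L[ℂ] H, star R * R = T ∧ ∀ B, Commute T B → Commute R B := by
  refine ⟨CFC.sqrt T, ?_, ?_⟩
  · rw [(IsSelfAdjoint.of_nonneg (CFC.sqrt_nonneg T)).star_eq]
    exact CFC.sqrt_mul_sqrt_self T h0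
  · intro B hB
    rw [CFC.sqrt_eq_cfc]
    exact hB.cfc_nnreal _

theorem star_mul_self_nonneg' (R : H →L[ℂ] H) : 0 ≤ star R * R := star_mul_self_nonneg R

/-- A positive operator `A` satisfies `‖A x‖² ≤ ‖A‖ ⟨A x, x⟩`. -/
theorem norm_apply_sq_le {A : H →L[ℂ] H} (hA : 0 ≤ A) (x : H) :
    ‖A x‖ ^ 2 ≤ ‖A‖ * (inner ℂ (A x) x).re := by
  set R := CFC.sqrt A with hR
  have hR0 : 0 ≤ R := CFC.sqrt_nonneg A
  have hRR : R * R = A := CFC.sqrt_mul_sqrt_self A hA
  have hRsa : star R = R := (IsSelfAdjoint.of_nonneg hR0).star_eq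
  have h1 : ‖R‖ ^ 2 = ‖A‖ := by
    have h2 := CStarRing.norm_star_mul_self (x := R)
    rw [hRsa, hRR] at h2
    rw [h2, sq]
  have h3 : (inner ℂ (A x) x).re = ‖R x‖ ^ 2 := by
    rw [← hRR]
    change (inner ℂ (R (R x)) x).re = _
    have hadj : ContinuousLinearMap.adjoint R = R := hRsa
    have h4 : inner ℂ (R (R x)) x = inner ℂ (R x) (R x) := by
      have h5 := ContinuousLinearMap.adjoint_inner_left R x (R x)
      rwa [hadj] at h5
    rw [h4, inner_self_eq_norm_sq_to_K]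
    norm_cast
  rw [h3, ← h1, ← mul_pow]
  gcongr
  calc ‖A x‖ = ‖R (R x)‖ := by rw [← hRR]; rfl
    _ ≤ ‖R‖ * ‖R x‖ := R.le_opNorm _

/-- Strong limits of positive operators are positive. -/
theorem lim_nonneg {A : ℕ → H →L[ℂ] H} {A' : H →L[ℂ] H} (h0 : ∀ n, 0 ≤ A n)
    (hlim : ∀ x, Tendsto (fun n => A n x) atTop (𝓝 (A' x))) : 0 ≤ A' := by
  rw [nonneg_iff, ContinuousLinearMap.isPositive_iff_complex]
  intro x
  have hre : Tendsto (fun n => (inner ℂ (A n x) x)) atTop (𝓝 (inner ℂ (A' x) x)) :=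
    (hlim x).inner tendsto_const_nhds
  have h2 : ∀ m, (((inner ℂ (A m x) x).re : ℂ) = inner ℂ (A m x) x ∧
      0 ≤ (inner ℂ (A m x) x).re) := by
    intro m
    exact (ContinuousLinearMap.isPositive_iff_complex _).1 (nonneg_iff.1 (h0 m)) x
  have h3 : Tendsto (fun m => ((inner ℂ (A m x) x).re : ℂ)) atTop
      (𝓝 ((inner ℂ (A' x) x).re : ℂ)) :=
    (Complex.continuous_ofReal.tendsto _).comp ((Complex.continuous_re.tendsto _).comp hre)
  constructor
  · apply tendsto_nhds_unique h3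
    refine hre.congr ?_
    intro m
    exact (h2 m).1.symm
  · exact ge_of_tendsto' ((Complex.continuous_re.tendsto _).comp hre) fun m => (h2 m).2

/-- A decreasing sequence of positive operators converges strongly to its infimum. -/
theorem exists_lim {T : ℕ → H →L[ℂ] H} (h0 : ∀ n, 0 ≤ T n) (ha : Antitone T) :
    ∃ S : H →L[ℂ] H, (∀ x, Tendsto (fun n => T n x) atTop (𝓝 (S x))) ∧ 0 ≤ S ∧
      (∀ n, S ≤ T n) ∧ ∀ U : H →L[ℂ] H, (∀ n, U ≤ T n) → U ≤ S := by
  have hmono : ∀ x, Antitone fun n => (inner ℂ (T n x) x).re := fun x m n hmn =>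
    le_iff_re (ha hmn) x
  have hbdd : ∀ x n, 0 ≤ (inner ℂ (T n x) x).re := fun x n =>
    (nonneg_iff.1 (h0 n)).re_inner_nonneg_left x
  have hlim : ∀ x, ∃ c, Tendsto (fun n => (inner ℂ (T n x) x).re) atTop (𝓝 c) := fun x =>
    ⟨_, tendsto_atTop_ciInf (hmono x) ⟨0, by rintro _ ⟨n, rfl⟩; exact hbdd x n⟩⟩
  have hnorm : ∀ m n, m ≤ n → ‖T m - T n‖ ≤ ‖T 0‖ := by
    intro m n hmn
    apply CStarAlgebra.norm_le_norm_of_nonneg_of_le
    · exact sub_nonneg.2 (ha hmn)
    · exact (sub_le_self _ (h0 n)).trans (ha (Nat.zero_le m))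
  have hkey : ∀ x m n, m ≤ n → ‖T m x - T n x‖ ^ 2 ≤
      ‖T 0‖ * ((inner ℂ (T m x) x).re - (inner ℂ (T n x) x).re) := by
    intro x m n hmn
    have h1 := norm_apply_sq_le (sub_nonneg.2 (ha hmn)) x
    have h2 : (inner ℂ ((T m - T n) x) x).re =
        (inner ℂ (T m x) x).re - (inner ℂ (T n x) x).re := by
      rw [sub_apply, inner_sub_left, Complex.sub_re]
    rw [h2, sub_apply] at h1
    refine h1.trans ?_
    apply mul_le_mul_of_nonneg_right (hnorm m n hmn)
    have := hmono x hmn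
    simp only at this
    linarith
  have hcauchy : ∀ x, CauchySeq fun n => T n x := by
    intro x
    obtain ⟨c, hc⟩ := hlim x
    rw [Metric.cauchySeq_iff']
    intro ε hε
    obtain ⟨N, hN⟩ := Metric.tendsto_atTop.1 hc (ε ^ 2 / (4 * (‖T 0‖ + 1))) (by positivity)
    refine ⟨N, fun n hn => ?_⟩
    rw [dist_comm, dist_eq_norm]
    apply (sq_lt_sq₀ (norm_nonneg _) hε.le).1
    refine (hkey x N n hn).trans_lt ?_
    have h1 := hN N le_rfl
    have h2 := hN n hn
    rw [Real.dist_eq] at h1 h2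
    have h3 := (abs_lt.1 h1).2
    have h4 := (abs_lt.1 h2).1
    have h5 : (inner ℂ (T N x) x).re - (inner ℂ (T n x) x).re ≤
        2 * (ε ^ 2 / (4 * (‖T 0‖ + 1))) := by linarith
    calc ‖T 0‖ * ((inner ℂ (T N x) x).re - (inner ℂ (T n x) x).re)
        ≤ (‖T 0‖ + 1) * (2 * (ε ^ 2 / (4 * (‖T 0‖ + 1)))) := by
          apply mul_le_mul (by linarith) h5 _ (by positivity)
          have := hmono x hn
          simp only at this
          linarith
      _ = ε ^ 2 / 2 := by field_simp; ring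
      _ < ε ^ 2 := by nlinarith [sq_nonneg ε]
  choose S hS using fun x => cauchySeq_tendsto_of_complete (hcauchy x)
  let S' : H →L[ℂ] H := continuousLinearMapOfTendsto T (tendsto_pi_nhds.2 hS)
  have hS' : ∀ x, Tendsto (fun n => T n x) atTop (𝓝 (S' x)) := hS
  refine ⟨S', hS', lim_nonneg h0 hS', fun n => ?_, fun U hU => ?_⟩
  · rw [← sub_nonneg]
    refine lim_nonneg (A := fun m => T n - T (m + n)) (fun m => sub_nonneg.2 (ha (by omega)))
      (fun x => ?_)
    simp only [sub_apply]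
    exact tendsto_const_nhds.sub ((tendsto_add_atTop_iff_nat n).2 (hS' x))
  · rw [← sub_nonneg]
    refine lim_nonneg (A := fun m => T m - U) (fun m => sub_nonneg.2 (hU m)) (fun x => ?_)
    simp only [sub_apply]
    exact (hS' x).sub tendsto_const_nhds

/-- The resolvent. -/
noncomputable def res (s : H →L[ℂ] H) : H →L[ℂ] H := Ring.inverse (1 + s)

theorem strictlyPos {s : H →L[ℂ] H} (hs : 0 ≤ s) : IsStrictlyPositive (1 + s) :=
  IsStrictlyPositive.of_le (a := 1) ⟨zero_le_one, isUnit_one⟩ (le_add_of_nonneg_right hs)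

theorem res_anti {s t : H →L[ℂ] H} (hs : 0 ≤ s) (hst : s ≤ t) : res t ≤ res s := by
  unfold res
  exact CStarAlgebra.ringInverse_le_ringInverse (add_le_add_right hst 1) (strictlyPos hs)

omit [CompleteSpace H] in
theorem res_zero : res (0 : H →L[ℂ] H) = 1 := by
  unfold res
  rw [add_zero, Ring.inverse_one]

theorem res_le_one {s : H →L[ℂ] H} (hs : 0 ≤ s) : res s ≤ 1 := by
  rw [← res_zero]
  exact res_anti le_rfl hs

theorem res_nonneg {s : H →L[ℂ] H} (hs : 0 ≤ s) : 0 ≤ res s := by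
  have h1 := (strictlyPos hs).isUnit
  unfold res
  obtain ⟨u, hu⟩ := h1
  have h2 : 0 ≤ (u : H →L[ℂ] H) := by rw [hu]; exact (strictlyPos hs).nonneg
  rw [← hu, Ring.inverse_unit]
  exact CFC.inv_nonneg_of_nonneg u h2

/-- `1 - res s = q (res s) q` for the square root `q` of `s`. -/
theorem one_sub_res {s : H →L[ℂ] H} (hs : 0 ≤ s) : ∃ q : H →L[ℂ] H, star q * q = s ∧
    1 - res s = star q * res s * q := by
  obtain ⟨q, h1, h2⟩ := exists_sqrt hs
  refine ⟨q, h1, ?_⟩
  have hu := (strictlyPos hs).isUnit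
  have h3 : (1 + s) * res s = 1 := Ring.mul_inverse_cancel _ hu
  have h4 : Commute q s := h2 s (Commute.refl s)
  have h5 : Commute q (res s) := by
    obtain ⟨u, hu'⟩ := hu
    have h6 : Commute q (u : H →L[ℂ] H) := by
      rw [hu']
      exact (Commute.one_right q).add_right h4
    unfold res
    rw [← hu', Ring.inverse_unit]
    exact h6.units_inv_right
  have h7 : s * res s = 1 - res s := by
    rw [add_mul, one_mul] at h3
    rw [← h3]
    abel
  rw [mul_assoc, ← h5.eq, ← mul_assoc, h1, h7]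

theorem one_sub_res_le {s : H →L[ℂ] H} (hs : 0 ≤ s) : 1 - res s ≤ s := by
  obtain ⟨q, h1, h2⟩ := one_sub_res hs
  rw [h2]
  have h3 := star_left_conjugate_le_conjugate (res_le_one hs) q
  rwa [mul_one, h1] at h3

theorem le_one_sub_res {s : H →L[ℂ] H} (hs : 0 ≤ s) (hs1 : s ≤ 1) :
    (2⁻¹ : ℂ) • s ≤ 1 - res s := by
  obtain ⟨q, h1, h2⟩ := one_sub_res hs
  rw [h2]
  have h4 : (2⁻¹ : ℂ) • (1 : H →L[ℂ] H) ≤ res s := by
    have h5 := res_anti hs hs1
    have h6 : res (1 : H →L[ℂ] H) = (2⁻¹ : ℂ) • (1 : H →L[ℂ] H) := by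
      unfold res
      have h7 : ((1 : H →L[ℂ] H) + 1) * ((2⁻¹ : ℂ) • (1 : H →L[ℂ] H)) = 1 := by
        rw [mul_smul_comm, mul_one, ← two_smul ℂ (1 : H →L[ℂ] H), smul_smul]
        norm_num
      have h8 : ((2⁻¹ : ℂ) • (1 : H →L[ℂ] H)) * ((1 : H →L[ℂ] H) + 1) = 1 := by
        rw [smul_mul_assoc, one_mul, ← two_smul ℂ (1 : H →L[ℂ] H), smul_smul]
        norm_num
      exact Ring.inverse_unit ⟨1 + 1, (2⁻¹ : ℂ) • 1, h7, h8⟩
    rwa [h6] at h5
  have h3 := star_left_conjugate_le_conjugate h4 q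
  rwa [mul_smul_comm, mul_one, smul_mul_assoc, h1] at h3

end Order

end Pool.Agent.Helper48.CE
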