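import Pool.Agent.Helper48.CE.Transfer

/-!
The one scale statement.
-/

open scoped ENNReal ComplexConjugate
open Filter Topology

namespace Pool.Agent.Helper48.CE

open Pool.Agent.Helper84.GVN

/-- The approximation property of the group `G` that is transferred. -/
def Star (G : Type) [Group G] : Prop :=
  ∀ w : G → ℝ, (∀ g, 0 ≤ w g) → Summable w → ∀ ε : ℝ, 0 < ε →
    ∃ (J ι κ : Type) (_ : Countable J) (_ : Fintype ι) (_ : Fintype κ) (P R : G → L2 J)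
      (a φ : ι → G → ℂ) (b c : κ → G → ℂ) (B : κ → ℝ),
      (∀ g, ‖P g‖ ≤ 1 + ε) ∧ (∀ g, ‖R g‖ ≤ 1 + ε) ∧ (∀ g, ‖P g - R g‖ ≤ ε) ∧
      (∀ i, ∃ A, ∀ g, ‖a i g‖ ≤ A) ∧ (∀ i, ∃ A, ∀ g, ‖φ i g‖ ≤ A) ∧
      (∀ i, Tendsto (φ i) cofinite (𝓝 0)) ∧
      (∀ g h, inner ℂ (P g) (R h) = ∑ i, a i g * φ i (g * h⁻¹)) ∧
      (∀ i g, ‖b i g‖ ≤ B i) ∧ (∀ i, ∃ A, ∀ g, ‖c i g‖ ≤ A) ∧
      (∀ g h, 1 - inner ℂ (P g) (R h) = ∑ i, b i g * c i (g * h⁻¹)) ∧
      ∑ i, B i * √(∑' u, ‖c i u‖ ^ 2 * w u) ≤ ε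

section Small

variable {G : Type*}

/-- Multiplication by a function tending to zero is compact. -/
theorem mulB_tendsto {Λ : Type*} {φ : G → ℂ} (hφ : ∃ A, ∀ g, ‖φ g‖ ≤ A)
    (h0 : Tendsto φ cofinite (𝓝 0)) {x : Λ → L2 G} (hx : ∀ t, ‖x t‖ ≤ 1)
    (hx0 : ∀ g, Tendsto (fun t => x t g) cofinite (𝓝 0)) :
    Tendsto (fun t => ‖mulB φ hφ (x t)‖) cofinite (𝓝 0) := by
  classical
  obtain ⟨A, hA⟩ := hφ
  rw [Metric.tendsto_nhds]
  intro δ hδ
  have hfin : {g | ¬ ‖φ g‖ < δ / 2}.Finite := by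
    have := (Metric.tendsto_nhds.1 h0 (δ / 2) (by positivity))
    rw [Filter.eventually_cofinite] at this
    simpa [dist_eq_norm] using this
  set F := hfin.toFinset with hF
  have h1 : Tendsto (fun t => ∑ g ∈ F, A ^ 2 * ‖x t g‖ ^ 2) cofinite (𝓝 0) := by
    have h2 : Tendsto (fun t => ∑ g ∈ F, A ^ 2 * ‖x t g‖ ^ 2) cofinite
        (𝓝 (∑ g ∈ F, A ^ 2 * ‖(0 : ℂ)‖ ^ 2)) :=
      tendsto_finsetSum _ fun g _ => (((hx0 g).norm.pow 2).const_mul _)
    simpa using h2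
  filter_upwards [Metric.tendsto_nhds.1 h1 (δ ^ 2 / 2) (by positivity)] with t ht
  rw [dist_zero_right, Real.norm_of_nonneg (Finset.sum_nonneg fun g _ => by positivity)] at ht
  rw [dist_zero_right, norm_norm]
  apply (sq_lt_sq₀ (norm_nonneg _) hδ.le).1
  rw [norm_mulB_sq]
  have hs : Summable fun g => ‖x t g‖ ^ 2 := summable_sq (x t)
  have hs1 : Summable fun g => (δ / 2) ^ 2 * ‖x t g‖ ^ 2 := hs.mul_left _
  have hs2 : Summable fun g => if g ∈ F then A ^ 2 * ‖x t g‖ ^ 2 else 0 :=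
    summable_of_ne_finset_zero (s := F) (fun g hg => by simp [hg])
  have hle : ∀ g, ‖φ g‖ ^ 2 * ‖x t g‖ ^ 2 ≤ (δ / 2) ^ 2 * ‖x t g‖ ^ 2 +
      (if g ∈ F then A ^ 2 * ‖x t g‖ ^ 2 else 0) := by
    intro g
    by_cases hg : g ∈ F
    · rw [if_pos hg]
      have : ‖φ g‖ ^ 2 * ‖x t g‖ ^ 2 ≤ A ^ 2 * ‖x t g‖ ^ 2 := by
        gcongr
        exact hA g
      have h3 : 0 ≤ (δ / 2) ^ 2 * ‖x t g‖ ^ 2 := by positivity
      linarith
    · rw [if_neg hg, add_zero]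
      have hg2 : ‖φ g‖ < δ / 2 := by
        by_contra hcon
        exact hg (by rw [hF, Set.Finite.mem_toFinset]; exact hcon)
      gcongr
  have hs3 : Summable fun g => ‖φ g‖ ^ 2 * ‖x t g‖ ^ 2 :=
    Summable.of_nonneg_of_le (fun g => by positivity) hle (hs1.add hs2)
  calc ∑' g, ‖φ g‖ ^ 2 * ‖x t g‖ ^ 2
      ≤ ∑' g, ((δ / 2) ^ 2 * ‖x t g‖ ^ 2 + (if g ∈ F then A ^ 2 * ‖x t g‖ ^ 2 else 0)) :=
        Summable.tsum_le_tsum hle hs3 (hs1.add hs2)
    _ = (δ / 2) ^ 2 * ‖x t‖ ^ 2 + ∑ g ∈ F, A ^ 2 * ‖x t g‖ ^ 2 := by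
        rw [hs1.tsum_add hs2, tsum_mul_left, ← norm_sq_eq]
        congr 1
        rw [tsum_eq_sum (s := F) (fun g hg => by simp [hg])]
        apply Finset.sum_congr rfl
        intro g hg
        rw [if_pos hg]
    _ < δ ^ 2 := by
        have : ‖x t‖ ^ 2 ≤ 1 := by
          have := hx t
          nlinarith [norm_nonneg (x t)]
        have h4 : (δ / 2) ^ 2 * ‖x t‖ ^ 2 ≤ (δ / 2) ^ 2 * 1 := by gcongr
        nlinarith

end Small

/-- One scale of the coarse embedding. -/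
theorem one_scale {G Λ : Type} [Group G] [Group Λ] (hG : Star G)
    (v : Λ →* (L2 G ≃ₗᵢ[ℂ] L2 G)) (hv : ∀ t, CommR (v t))
    (hmix : ∀ g, Tendsto (fun t => (v t (dl 1)) g) cofinite (𝓝 0))
    (E : Finset Λ) (δ : ℝ) (hδ : 0 < δ) :
    ∃ (J : Type) (_ : Countable J) (Z : Λ → L2 (G × J)), (∀ t, ‖Z t‖ ≤ 2) ∧
      (∀ s t, s⁻¹ * t ∈ E → ‖Z s - Z t‖ ≤ δ) ∧
      ∃ K : Finset Λ, ∀ s t, s⁻¹ * t ∉ K → 1 ≤ ‖Z s - Z t‖ := by
  classical
  set ε : ℝ := min (1 / 50) (δ ^ 2 / 16) with hε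
  have hε0 : 0 < ε := lt_min (by norm_num) (by positivity)
  have hε1 : ε ≤ 1 / 50 := min_le_left _ _
  have hε2 : ε ≤ δ ^ 2 / 16 := min_le_right _ _
  set E' : Finset Λ := insert 1 E with hE'
  set w : G → ℝ := fun g => ∑ r ∈ E', ‖(v r (dl 1)) g‖ ^ 2 with hw
  have hw0 : ∀ g, 0 ≤ w g := fun g => Finset.sum_nonneg fun r _ => by positivity
  have hws : Summable w := summable_sum fun r _ => summable_sq _
  obtain ⟨J, ι, κ, hJ, _, _, P, R, a, φ, b, c, B, hP, hR, hPR, ha, hφ, hφ0, hk, hb, hc, hk', hB⟩ :=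
    hG w hw0 hws ε hε0
  have hPb : ∃ C, ∀ g, ‖P g‖ ≤ C := ⟨_, hP⟩
  have hRb : ∃ C, ∀ g, ‖R g‖ ≤ C := ⟨_, hR⟩
  have hbb : ∀ i, ∃ A, ∀ g, ‖b i g‖ ≤ A := fun i => ⟨_, hb i⟩
  have hB0 : ∀ i, 0 ≤ B i := fun i => (norm_nonneg _).trans (hb i 1)
  have hnP : ∀ t, ‖zt v P hPb t‖ ≤ 1 + ε := norm_zt_le hP (by positivity) hPb
  have hnR : ∀ t, ‖zt v R hRb t‖ ≤ 1 + ε := norm_zt_le hR (by positivity) hRb
  have hnPR : ∀ t, ‖zt v P hPb t - zt v R hRb t‖ ≤ ε := norm_zt_sub_le hPR hε0.le hPb hRb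
  -- near the diagonal
  have hnear : ∀ s t, s⁻¹ * t ∈ E' → ‖1 - inner ℂ (zt v P hPb s) (zt v R hRb t)‖ ≤ ε := by
    intro s t hst
    rw [one_sub_inner_zt hv hPb hRb ha hφ hk hbb hc hk']
    refine (norm_inner_le_norm _ _).trans ?_
    rw [LinearIsometryEquiv.norm_map, norm_dl, one_mul]
    refine (norm_opT_le hb hB0 hbb hc _ _).trans (le_trans (Finset.sum_le_sum fun i _ => ?_) hB)
    apply mul_le_mul_of_nonneg_left _ (hB0 i)
    apply Real.le_sqrt_of_sq_le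
    rw [norm_mulB_sq]
    obtain ⟨A, hA⟩ := hc i
    have h1 : Summable fun u => ‖c i u‖ ^ 2 * w u :=
      Summable.of_nonneg_of_le (fun u => mul_nonneg (by positivity) (hw0 u)) (fun u => by
        have := hw0 u
        gcongr
        exact hA u) (hws.mul_left (A ^ 2))
    have h2 : ∀ u, ‖c i u‖ ^ 2 * ‖(v (s⁻¹ * t) (dl 1)) u‖ ^ 2 ≤ ‖c i u‖ ^ 2 * w u := by
      intro u
      gcongr
      exact Finset.single_le_sum (f := fun r => ‖(v r (dl 1)) u‖ ^ 2)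
        (fun r _ => by positivity) hst
    exact Summable.tsum_le_tsum h2
      (Summable.of_nonneg_of_le (fun u => by positivity) h2 h1) h1
  -- far from the diagonal
  have hfar : ∃ K : Finset Λ, ∀ s t, s⁻¹ * t ∉ K →
      ‖inner ℂ (zt v P hPb s) (zt v R hRb t)‖ ≤ 1 / 10 := by
    choose A hA using ha
    have hA0 : ∀ i, 0 ≤ A i := fun i => (norm_nonneg _).trans (hA i 1)
    have h1 : Tendsto (fun r => ∑ i, A i * ‖mulB (φ i) (hφ i) (v r (dl 1))‖) cofinite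
        (𝓝 (∑ i : ι, A i * 0)) :=
      tendsto_finsetSum _ fun i _ => (mulB_tendsto (hφ i) (hφ0 i)
        (fun t => by rw [LinearIsometryEquiv.norm_map, norm_dl]) hmix).const_mul _
    simp only [mul_zero, Finset.sum_const_zero] at h1
    have h2 := Metric.tendsto_nhds.1 h1 (1 / 10) (by norm_num)
    rw [Filter.eventually_cofinite] at h2
    refine ⟨h2.toFinset, fun s t hst => ?_⟩
    rw [Set.Finite.mem_toFinset, Set.mem_setOf_eq, not_not, dist_zero_right] at hst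
    rw [inner_zt hv hPb hRb (fun i => ⟨A i, hA i⟩) hφ hk]
    refine (norm_inner_le_norm _ _).trans ?_
    rw [LinearIsometryEquiv.norm_map, norm_dl, one_mul]
    refine (norm_opT_le hA hA0 (fun i => ⟨A i, hA i⟩) hφ _ _).trans ?_
    exact (le_abs_self _).trans hst.le
  obtain ⟨K, hK⟩ := hfar
  have hre : ∀ x y : L2 (G × J), ‖x - y‖ ^ 2 = ‖x‖ ^ 2 - 2 * (inner ℂ x y).re + ‖y‖ ^ 2 := by
    intro x y
    exact norm_sub_sq (𝕜 := ℂ) x y
  refine ⟨J, hJ, zt v P hPb, fun t => (hnP t).trans (by linarith), ?_, K, ?_⟩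
  · intro s t hst
    have h1 := hnear s t (Finset.mem_insert_of_mem hst)
    have h2 : 1 - ε ≤ (inner ℂ (zt v P hPb s) (zt v R hRb t)).re := by
      have := (Complex.abs_re_le_norm _).trans h1
      rw [Complex.sub_re, Complex.one_re] at this
      linarith [le_abs_self (1 - (inner ℂ (zt v P hPb s) (zt v R hRb t)).re)]
    have h3 : ‖zt v P hPb s - zt v R hRb t‖ ^ 2 ≤ 8 * ε := by
      rw [hre]
      have e1 := hnP s
      have e2 := hnR t
      nlinarith [norm_nonneg (zt v P hPb s), norm_nonneg (zt v R hRb t)]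
    have h4 : ‖zt v P hPb s - zt v R hRb t‖ ≤ 3 / 4 * δ := by
      apply (sq_le_sq₀ (norm_nonneg _) (by positivity)).1
      nlinarith
    have h5 : ε ≤ δ / 4 := by
      by_contra hcon
      push_neg at hcon
      have h6 : δ / 4 < 1 / 50 := lt_of_lt_of_le hcon hε1
      nlinarith
    calc ‖zt v P hPb s - zt v P hPb t‖
        = ‖(zt v P hPb s - zt v R hRb t) - (zt v P hPb t - zt v R hRb t)‖ := by
          congr 1; abel
      _ ≤ ‖zt v P hPb s - zt v R hRb t‖ + ‖zt v P hPb t - zt v R hRb t‖ := norm_sub_le _ _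
      _ ≤ 3 / 4 * δ + δ / 4 := add_le_add h4 ((hnPR t).trans h5)
      _ = δ := by ring
  · intro s t hst
    have hlow : ∀ t, 1 - 2 * ε ≤ ‖zt v P hPb t‖ := by
      intro t
      have h1 := hnear t t (by simp [hE'])
      have h2 : 1 - ε ≤ ‖inner ℂ (zt v P hPb t) (zt v R hRb t)‖ := by
        have h3 := norm_sub_norm_le (1 : ℂ) (inner ℂ (zt v P hPb t) (zt v R hRb t))
        rw [norm_one] at h3
        linarith
      have h3 := h2.trans (norm_inner_le_norm _ _)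
      have h4 := hnR t
      nlinarith [norm_nonneg (zt v P hPb t), norm_nonneg (zt v R hRb t)]
    have h1 := hK s t hst
    have h2 : (inner ℂ (zt v P hPb s) (zt v P hPb t)).re ≤ 1 / 10 + (1 + ε) * ε := by
      refine (Complex.re_le_norm _).trans ?_
      have e1 : inner ℂ (zt v P hPb s) (zt v P hPb t) = inner ℂ (zt v P hPb s) (zt v R hRb t) +
          inner ℂ (zt v P hPb s) (zt v P hPb t - zt v R hRb t) := by
        rw [inner_sub_right]; ring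
      rw [e1]
      refine (norm_add_le _ _).trans (add_le_add h1 ((norm_inner_le_norm _ _).trans ?_))
      exact mul_le_mul (hnP s) (hnPR t) (norm_nonneg _) (by positivity)
    have h3 := hre (zt v P hPb s) (zt v P hPb t)
    have h4 := hlow s
    have h5 := hlow t
    have h6 : (1 : ℝ) ^ 2 ≤ ‖zt v P hPb s - zt v P hPb t‖ ^ 2 := by
      rw [h3]
      nlinarith
    exact (sq_le_sq₀ (by norm_num) (norm_nonneg _)).1 h6

end Pool.Agent.Helper48.CE
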