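import Pool.Agent.Helper48.CE.Class

/-!
Coarse embeddability and group von Neumann algebras: definitions for the statement.
-/

open scoped ENNReal ComplexConjugate
open Filter Topology

namespace Pool.Agent.Helper48.CE.Stmt

/-- The Hilbert space `ℓ²(I)` of square summable complex functions on `I`. -/
def HL (I : Type) : Type := lp (fun _ : I => ℂ) 2

noncomputable instance (I : Type) : NormedAddCommGroup (HL I) :=
  (inferInstance : NormedAddCommGroup (lp (fun _ : I => ℂ) 2))

noncomputable instance (I : Type) : InnerProductSpace ℂ (HL I) :=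
  (inferInstance : InnerProductSpace ℂ (lp (fun _ : I => ℂ) 2))

instance (I : Type) : CompleteSpace (HL I) :=
  (inferInstance : CompleteSpace (lp (fun _ : I => ℂ) 2))

/-- The value of `f ∈ ℓ²(I)` at `i`. -/
def HL.val {I : Type} (f : HL I) : I → ℂ := Subtype.val (p := fun f => f ∈ lp (fun _ : I => ℂ) 2) f

/-- The inner product of `ℓ²(I)`, conjugate linear in the first variable. -/
noncomputable def ip {I : Type} (f g : HL I) : ℂ := ∑' i, conj (f.val i) * g.val i

/-- The bounded operators on `ℓ²(I)`. -/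
def BH (I : Type) : Type := HL I →L[ℂ] HL I

noncomputable instance (I : Type) : CStarAlgebra (BH I) :=
  (inferInstance : CStarAlgebra (HL I →L[ℂ] HL I))

/-- The value of a bounded operator at a vector. -/
noncomputable def app {I : Type} (T : BH I) (f : HL I) : HL I := (show HL I →L[ℂ] HL I from T) f

/-- The real Hilbert space of square summable real sequences. -/
def RL : Type := lp (fun _ : ℕ => ℝ) 2

noncomputable instance : NormedAddCommGroup RL :=
  (inferInstance : NormedAddCommGroup (lp (fun _ : ℕ => ℝ) 2))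

/-- Coarse embeddability into a Hilbert space, in the form of the frozen statement. -/
def CoarselyEmbeds (Λ : Type) [Group Λ] : Prop :=
  ∃ F : Λ → RL,
    (∀ K : Finset Λ, ∃ C : ℝ, ∀ x y : Λ, x⁻¹ * y ∈ K → ‖F x - F y‖ ≤ C) ∧
    (∀ R : ℝ, ∃ K : Finset Λ, ∀ x y : Λ, ‖F x - F y‖ ≤ R → x⁻¹ * y ∈ K)

/-- The group von Neumann algebra, as the commutant of the right translations, in the form of the
frozen statement. -/
def GroupVN (Γ : Type) [Group Γ] : Set (BH Γ) :=
  {T | ∀ (g : Γ) (f f' : HL Γ),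
    (∀ h : Γ, f'.val h = f.val (h * g)) → ∀ h : Γ, (app T f').val h = (app T f).val (h * g)}

/-- The group von Neumann algebras are isomorphic, in the form of the frozen statement. -/
def IsoGroupVN (Γ Λ : Type) [Group Γ] [Group Λ] : Prop :=
  ∃ Φ : BH Γ → BH Λ, Set.BijOn Φ (GroupVN Γ) (GroupVN Λ) ∧
    ∀ S ∈ GroupVN Γ, ∀ T ∈ GroupVN Γ,
      Φ (S + T) = Φ S + Φ T ∧ Φ (S * T) = Φ S * Φ T ∧
      Φ (star S) = star (Φ S) ∧ ∀ c : ℂ, Φ (c • S) = c • Φ S

/-- The group `Λ` maps by a homomorphism into the unitaries of the group von Neumann algebra of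
`Γ`, in such a way that the unitaries tend weakly to zero at infinity. -/
def MapsMixing (Λ Γ : Type) [Group Λ] [Group Γ] : Prop :=
  ∃ v : Λ → BH Γ, (∀ t, v t ∈ GroupVN Γ) ∧ v 1 = 1 ∧ (∀ s t, v (s * t) = v s * v t) ∧
    (∀ t, star (v t) * v t = 1) ∧
    ∀ x y : HL Γ, Tendsto (fun t => ip x (app (v t) y)) cofinite (𝓝 0)

/-- The weak Haagerup property with constant one: Herz-Schur multipliers `m` of norm close to one,
vanishing at infinity, that are close to one on a given finite set. -/
def WH (G : Type) [Group G] : Prop :=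
  ∀ (F : Finset G) (ε : ℝ), 0 < ε → ∃ (m : G → ℂ) (p r : G → HL ℕ),
    Tendsto m cofinite (𝓝 0) ∧ (∀ q ∈ F, ‖1 - m q‖ ≤ ε) ∧ (∀ q, ‖p q‖ ≤ 1 + ε) ∧
    (∀ q, ‖r q‖ ≤ 1 + ε) ∧ ∀ q q', ip (p q) (r q') = m (q * q'⁻¹)

/-- The Haagerup property: normalised positive definite functions `m`, vanishing at infinity, that
are close to one on a given finite set. -/
def IsHaagerup (G : Type) [Group G] : Prop :=
  ∀ (F : Finset G) (ε : ℝ), 0 < ε → ∃ (m : G → ℂ) (p : G → HL ℕ),
    Tendsto m cofinite (𝓝 0) ∧ (∀ q ∈ F, ‖1 - m q‖ ≤ ε) ∧ (∀ q, ‖p q‖ = 1) ∧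
    ∀ q q', ip (p q) (p q') = m (q * q'⁻¹)

/-- Property A (exactness). -/
def PropA (Q : Type) [Group Q] : Prop :=
  ∀ (S : Finset Q) (ε : ℝ), 0 < ε → ∃ (B : Finset Q) (ξ : Q → HL Q), (∀ q, ‖ξ q‖ = 1) ∧
    (∀ q z, (ξ q).val z ≠ 0 → q * z⁻¹ ∈ B) ∧ ∀ q q', q * q'⁻¹ ∈ S → ‖ξ q - ξ q'‖ ≤ ε

/-- Weak amenability with Cowling-Haagerup constant one: finitely supported Herz-Schur
multipliers `m` of norm close to one that are close to one on a given finite set. -/
def CMAP (Q : Type) [Group Q] : Prop :=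
  ∀ (F : Finset Q) (ε : ℝ), 0 < ε → ∃ (m : Q → ℂ) (p r : Q → HL ℕ), m.support.Finite ∧
    (∀ q ∈ F, ‖1 - m q‖ ≤ ε) ∧ (∀ q, ‖p q‖ ≤ 1 + ε) ∧ (∀ q, ‖r q‖ ≤ 1 + ε) ∧
    ∀ q q', ip (p q) (r q') = m (q * q'⁻¹)

/-- The class of groups to which the theorem applies: the smallest class of groups that contains
every group with the weak Haagerup property with constant one and is closed under subgroups,
direct products, locally directed unions and extensions with exact quotient of Cowling-Haagerup
constant one. -/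
inductive Cls : ∀ (G : Type) [Group G], Prop
  | wh (G : Type) [Group G] (h : WH G) : Cls G
  | sub (G H : Type) [Group G] [Group H] (f : H →* G) (hf : Function.Injective f) (h : Cls G) :
      Cls H
  | prod (G H : Type) [Group G] [Group H] (hG : Cls G) (hH : Cls H) : Cls (G × H)
  | union (G : Type) [Group G] [Countable G] (N : Finset G → Subgroup G)
      (hN : ∀ F, ∀ g ∈ F, g ∈ N F) (h : ∀ F, Cls (N F)) : Cls G
  | ext (G : Type) [Group G] [Countable G] (N : Subgroup G) [N.Normal] (h : Cls N)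
      (hA : PropA (G ⧸ N)) (hC : CMAP (G ⧸ N)) : Cls G

end Pool.Agent.Helper48.CE.Stmt
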