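import Pool.Agent.Helper48.CE.Basic

/-!
Transfer of kernels through a homomorphism into the unitaries commuting with the right
translations.
-/

open scoped ENNReal ComplexConjugate
open Filter Topology

namespace Pool.Agent.Helper48.CE

open Pool.Agent.Helper84.GVN

section One

variable {G : Type*} [Group G]

theorem jjU_dl_eq {u : L2 G ≃ₗᵢ[ℂ] L2 G} (hu : CommR u) : jjU u (dl 1) = u.symm (dl 1) := by
  apply l2_ext
  intro x
  rw [jjU_dl_one, ← inner_dl_left x (u.symm (dl 1)), ← LinearIsometryEquiv.inner_map_map u,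
    LinearIsometryEquiv.apply_symm_apply, inner_dl_right, hu.apply_dl, one_mul]

theorem hasSum_conv {u : L2 G ≃ₗᵢ[ℂ] L2 G} (hu : CommR u) (f : L2 G) (g : G) :
    HasSum (fun h => f (g * h⁻¹) * (u.symm (dl 1)) h) (jjU u f g) := by
  have h1 := hasSum_clm ((jjU u).toContinuousLinearEquiv : L2 G →L[ℂ] L2 G) f g
  let e : G ≃ G :=
    { toFun := fun h => g * h⁻¹
      invFun := fun k => k⁻¹ * g
      left_inv := fun h => by group
      right_inv := fun k => by group }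
  have h2 := (Equiv.hasSum_iff e).2 h1
  convert! h2 using 2 with h
  simp only [Function.comp_apply, e, Equiv.coe_fn_mk]
  congr 1
  have h3 := commL_apply_dl (u := ((jjU u).toContinuousLinearEquiv : L2 G →L[ℂ] L2 G))
    (fun k f => hu.jjU_lam k f) (g * h⁻¹) g
  rw [h3]
  change _ = (jjU u (dl 1)) ((g * h⁻¹)⁻¹ * g)
  rw [jjU_dl_eq hu]
  congr 1
  group

theorem comm_jjU {u u' : L2 G ≃ₗᵢ[ℂ] L2 G} (hu : CommR u) (hu' : CommR u') (f : L2 G) :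
    jjU u' (u f) = u (jjU u' f) := by
  have h := comm_of_commR (u := (u.toContinuousLinearEquiv : L2 G →L[ℂ] L2 G))
    (S := ((jjU u').toContinuousLinearEquiv : L2 G →L[ℂ] L2 G)) hu (fun k f => hu'.jjU_lam k f)
  exact DFunLike.congr_fun h f

end One

section Main

variable {G Λ J : Type*} [Group G] [Group Λ]

/-- The vectors attached to a bounded field `P` of vectors. -/
noncomputable def zt (v : Λ →* (L2 G ≃ₗᵢ[ℂ] L2 G)) (P : G → L2 J) (hP : ∃ C, ∀ g, ‖P g‖ ≤ C)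
    (t : Λ) : L2 (G × J) :=
  amp1 (v t) (dmul P hP ((v t).symm (dl 1)))

theorem norm_zt_le {v : Λ →* (L2 G ≃ₗᵢ[ℂ] L2 G)} {P : G → L2 J} {C : ℝ} (hC : ∀ g, ‖P g‖ ≤ C)
    (hC0 : 0 ≤ C) (hP) (t : Λ) : ‖zt v P hP t‖ ≤ C := by
  unfold zt
  rw [LinearIsometryEquiv.norm_map]
  refine (norm_dmul_le hC hC0 hP _).trans ?_
  rw [LinearIsometryEquiv.norm_map, norm_dl, mul_one]

theorem norm_zt_sub_le {v : Λ →* (L2 G ≃ₗᵢ[ℂ] L2 G)} {P R : G → L2 J} {ε : ℝ}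
    (hε : ∀ g, ‖P g - R g‖ ≤ ε) (hε0 : 0 ≤ ε) (hP) (hR) (t : Λ) :
    ‖zt v P hP t - zt v R hR t‖ ≤ ε := by
  unfold zt
  rw [← map_sub, LinearIsometryEquiv.norm_map, dmul_sub P R hP hR ⟨ε, hε⟩]
  refine (norm_dmul_le hε hε0 _ _).trans ?_
  rw [LinearIsometryEquiv.norm_map, norm_dl, mul_one]

/-- The value of the symbol `∑ a_i(g) φ_i(u)` on the Fourier series of `x`, right multiplied by
`v_t⁻¹`. -/
noncomputable def opT {ι : Type*} [Fintype ι] (a φ : ι → G → ℂ) (ha : ∀ i, ∃ A, ∀ g, ‖a i g‖ ≤ A)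
    (hφ : ∀ i, ∃ A, ∀ g, ‖φ i g‖ ≤ A) (u : L2 G ≃ₗᵢ[ℂ] L2 G) (x : L2 G) : L2 G :=
  ∑ i, mulB (a i) (ha i) (jjU u (mulB (φ i) (hφ i) x))

theorem norm_opT_le {ι : Type*} [Fintype ι] {a φ : ι → G → ℂ} {A : ι → ℝ}
    (hA : ∀ i g, ‖a i g‖ ≤ A i) (hA0 : ∀ i, 0 ≤ A i) (ha) (hφ) (u : L2 G ≃ₗᵢ[ℂ] L2 G) (x : L2 G) :
    ‖opT a φ ha hφ u x‖ ≤ ∑ i, A i * ‖mulB (φ i) (hφ i) x‖ := by
  unfold opT
  refine (norm_sum_le _ _).trans (Finset.sum_le_sum fun i _ => ?_)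
  refine (norm_mulB_le (hA i) (hA0 i) (ha i) _).trans ?_
  rw [LinearIsometryEquiv.norm_map]

theorem opT_apply {ι : Type*} [Fintype ι] (a φ : ι → G → ℂ) (ha) (hφ) {u : L2 G ≃ₗᵢ[ℂ] L2 G}
    (hu : CommR u) (x : L2 G) (g : G) :
    HasSum (fun h => (∑ i, a i g * φ i (g * h⁻¹)) * (x (g * h⁻¹) * (u.symm (dl 1)) h))
      (opT a φ ha hφ u x g) := by
  have h1 : ∀ i, HasSum (fun h => a i g * (φ i (g * h⁻¹) * x (g * h⁻¹) * (u.symm (dl 1)) h))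
      (a i g * jjU u (mulB (φ i) (hφ i) x) g) := fun i =>
    (hasSum_conv hu (mulB (φ i) (hφ i) x) g).mul_left (a i g)
  have h2 := hasSum_sum (s := Finset.univ) (fun i _ => h1 i)
  have h3 : opT a φ ha hφ u x g = ∑ i, a i g * jjU u (mulB (φ i) (hφ i) x) g := by
    unfold opT
    rw [lp.coeFn_sum, Finset.sum_apply]
    rfl
  rw [h3]
  convert! h2 using 2 with h
  rw [Finset.sum_mul]
  apply Finset.sum_congr rfl
  intro i _
  ring

theorem symm_eq (v : Λ →* (L2 G ≃ₗᵢ[ℂ] L2 G)) (t : Λ) (f : L2 G) : (v t).symm f = v t⁻¹ f := by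
  rw [map_inv]
  rfl

/-- Right multiplication of the Fourier series of `v(s⁻¹ t)` by `v_t⁻¹`. -/
theorem jjU_cf {v : Λ →* (L2 G ≃ₗᵢ[ℂ] L2 G)} (hv : ∀ t, CommR (v t)) (s t : Λ) :
    jjU (v t) (v (s⁻¹ * t) (dl 1)) = (v s).symm (dl 1) := by
  rw [comm_jjU (hv _) (hv t), jjU_dl_eq (hv t), symm_eq, symm_eq]
  have h : v s⁻¹ = v (s⁻¹ * t) * v t⁻¹ := by
    rw [← map_mul]
    congr 1
    group
  rw [h]
  rfl

/-- The transfer formula. -/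
theorem inner_zt {v : Λ →* (L2 G ≃ₗᵢ[ℂ] L2 G)} (hv : ∀ t, CommR (v t)) {P R : G → L2 J}
    (hP) (hR) {ι : Type*} [Fintype ι] {a φ : ι → G → ℂ} (ha : ∀ i, ∃ A, ∀ g, ‖a i g‖ ≤ A)
    (hφ : ∀ i, ∃ A, ∀ g, ‖φ i g‖ ≤ A)
    (hk : ∀ g h, inner ℂ (P g) (R h) = ∑ i, a i g * φ i (g * h⁻¹)) (s t : Λ) :
    inner ℂ (zt v P hP s) (zt v R hR t) =
      inner ℂ ((v s).symm (dl 1)) (opT a φ ha hφ (v t) (v (s⁻¹ * t) (dl 1))) := by
  have h0 : inner ℂ (zt v P hP s) (zt v R hR t) = inner ℂ (dmul P hP ((v s).symm (dl 1)))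
      (amp1 (v (s⁻¹ * t)) (dmul R hR ((v t).symm (dl 1)))) := by
    unfold zt
    have e1 : amp1 (v t) (dmul R hR ((v t).symm (dl 1))) =
        amp1 (v s) (amp1 (v (s⁻¹ * t)) (dmul R hR ((v t).symm (dl 1)))) := by
      have h : v t = v s * v (s⁻¹ * t) := by
        rw [← map_mul]
        congr 1
        group
      rw [h, amp1_mul]
      rfl
    rw [e1, LinearIsometryEquiv.inner_map_map]
  rw [h0]
  have h1 := hasSum_inner_rows (dmul P hP ((v s).symm (dl 1)))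
    (amp1 (v (s⁻¹ * t)) (dmul R hR ((v t).symm (dl 1))))
  have h2 : HasSum (fun g => inner ℂ (((v s).symm (dl 1)) g)
      ((opT a φ ha hφ (v t) (v (s⁻¹ * t) (dl 1))) g))
      (inner ℂ ((v s).symm (dl 1)) (opT a φ ha hφ (v t) (v (s⁻¹ * t) (dl 1)))) :=
    lp.hasSum_inner _ _
  refine h1.unique ?_
  convert! h2 using 2 with g
  rw [row_dmul, inner_smul_left]
  have h3 := hasSum_inner_row (v (s⁻¹ * t)) (dmul R hR ((v t).symm (dl 1))) g (P g)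
  have h4 := opT_apply a φ ha hφ (hv t) (v (s⁻¹ * t) (dl 1)) g
  have h5 : inner ℂ (P g) (row g (amp1 (v (s⁻¹ * t)) (dmul R hR ((v t).symm (dl 1))))) =
      (opT a φ ha hφ (v t) (v (s⁻¹ * t) (dl 1))) g := by
    refine h3.unique ?_
    convert! h4 using 2 with h
    rw [row_dmul, inner_smul_right, hk, (hv _).apply_dl]
    change _ = (∑ i, a i g * φ i (g * h⁻¹)) * (cf (v (s⁻¹ * t)) (g * h⁻¹) * _)
    ring
  rw [h5, RCLike.inner_apply, mul_comm]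

/-- The complementary transfer formula. -/
theorem one_sub_inner_zt {v : Λ →* (L2 G ≃ₗᵢ[ℂ] L2 G)} (hv : ∀ t, CommR (v t)) {P R : G → L2 J}
    (hP) (hR) {ι : Type*} [Fintype ι] {a φ : ι → G → ℂ} (ha : ∀ i, ∃ A, ∀ g, ‖a i g‖ ≤ A)
    (hφ : ∀ i, ∃ A, ∀ g, ‖φ i g‖ ≤ A)
    (hk : ∀ g h, inner ℂ (P g) (R h) = ∑ i, a i g * φ i (g * h⁻¹))
    {κ : Type*} [Fintype κ] {b c : κ → G → ℂ} (hb : ∀ i, ∃ A, ∀ g, ‖b i g‖ ≤ A)
    (hc : ∀ i, ∃ A, ∀ g, ‖c i g‖ ≤ A)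
    (hk' : ∀ g h, 1 - inner ℂ (P g) (R h) = ∑ i, b i g * c i (g * h⁻¹)) (s t : Λ) :
    1 - inner ℂ (zt v P hP s) (zt v R hR t) =
      inner ℂ ((v s).symm (dl 1)) (opT b c hb hc (v t) (v (s⁻¹ * t) (dl 1))) := by
  rw [inner_zt hv hP hR ha hφ hk]
  have h1 : (1 : ℂ) = inner ℂ ((v s).symm (dl 1)) (jjU (v t) (v (s⁻¹ * t) (dl 1))) := by
    rw [jjU_cf hv, inner_self_eq_norm_sq_to_K, LinearIsometryEquiv.norm_map, norm_dl]
    simp
  rw [h1, ← inner_sub_right]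
  congr 1
  apply l2_ext
  intro g
  rw [lp.coeFn_sub, Pi.sub_apply]
  have h2 := hasSum_conv (hv t) (v (s⁻¹ * t) (dl 1)) g
  have h3 := opT_apply a φ ha hφ (hv t) (v (s⁻¹ * t) (dl 1)) g
  have h4 := opT_apply b c hb hc (hv t) (v (s⁻¹ * t) (dl 1)) g
  refine (h2.sub h3).unique ?_
  convert! h4 using 2 with h
  rw [← hk', ← hk]
  ring

end Main

end Pool.Agent.Helper48.CE
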